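import Pool.Agent.H29.TC.Targets

/-!
# Divisors of an ideal
-/

set_option autoImplicit false

open NumberField UniqueFactorizationMonoid

namespace Pool.Agent.H29.THC

open Pool.Agent.H25.HK Pool.Agent.H28.RC Pool.Agent.H23.LB Pool.Agent.H29.TC

theorem fin_dvs {K : Type} [Field K] [NumberField K] {k : Ideal (𝓞 K)} (hk : k ≠ ⊥) :
    {e : Ideal (𝓞 K) | k ≤ e}.Finite := by
  classical
  have : Fintype (Ideal (𝓞 K))ˣ := Fintype.ofFinite _
  have h0 : Finite {e : Ideal (𝓞 K) // e ∣ k} :=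
    @Finite.of_fintype _ (fintypeSubtypeDvd k (by rwa [Ideal.zero_eq_bot]))
  have h1 : {e : Ideal (𝓞 K) | e ∣ k}.Finite := @Set.toFinite _ _ h0
  refine h1.subset fun e he => ?_
  exact Ideal.dvd_iff_le.2 he

theorem pf_DF : T_DF := by
  intro K _ _ k hk e
  have h := fin_dvs hk
  unfold dvs
  rw [dif_pos h, Set.Finite.mem_toFinset]
  rfl

theorem card_small {K : Type} [Field K] [NumberField K] (Y : ℕ) (s : Finset (Ideal (𝓞 K)))
    (hs : ∀ P ∈ s, Prime P) (hY : ∀ P ∈ s, Ideal.absNorm P ≤ Y) :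
    s.card ≤ Y.factorial ^ Module.finrank ℚ K := by
  classical
  have h1 : ∏ P ∈ s, P ∣ Ideal.span {((Y.factorial : ℕ) : 𝓞 K)} := by
    apply Finset.prod_primes_dvd _ hs
    intro P hP
    rw [Ideal.dvd_span_singleton]
    have h2 : (Ideal.absNorm P : 𝓞 K) ∈ P := Ideal.absNorm_mem P
    have h3 : Ideal.absNorm P ∣ Y.factorial := by
      apply Nat.dvd_factorial _ (hY P hP)
      apply Nat.pos_of_ne_zero
      intro h0
      exact (hs P hP).ne_zero (Ideal.absNorm_eq_zero_iff.1 h0)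
    obtain ⟨c, hc⟩ := h3
    rw [hc]
    push_cast
    exact Ideal.mul_mem_right _ _ h2
  have h2 : ∏ P ∈ s, Ideal.absNorm P ∣ Y.factorial ^ Module.finrank ℚ K := by
    have h3 := map_dvd Ideal.absNorm h1
    rw [map_prod, Ideal.absNorm_span_natCast, RingOfIntegers.rank] at h3
    exact h3
  have h3 : 2 ^ s.card ≤ ∏ P ∈ s, Ideal.absNorm P := by
    rw [← Finset.prod_const]
    refine Finset.prod_le_prod' fun P hP => ?_
    have h4 : Ideal.absNorm P ≠ 0 := fun h0 => (hs P hP).ne_zero (Ideal.absNorm_eq_zero_iff.1 h0)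
    have h5 : Ideal.absNorm P ≠ 1 := fun h1 => (hs P hP).not_isUnit
      (Ideal.isUnit_iff.2 (Ideal.absNorm_eq_one_iff.1 h1))
    omega
  have h4 := Nat.le_of_dvd (by positivity) h2
  exact (Nat.lt_two_pow_self).le.trans (h3.trans h4)

theorem pf_DV : T_DV := by
  classical
  intro n ε hε
  set a : ℝ := 2 ^ ε - 1 with ha
  have ha0 : 0 < a := by
    have : (1 : ℝ) < 2 ^ ε := Real.one_lt_rpow (by norm_num) hε
    linarith
  set C1 : ℝ := max 1 a⁻¹ with hC1
  have hC11 : 1 ≤ C1 := le_max_left _ _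
  have hB : ∀ c : ℕ, (c : ℝ) + 1 ≤ C1 * ((2 : ℝ) ^ ε) ^ c := by
    intro c
    have h1 : 1 + (c : ℝ) * a ≤ ((2 : ℝ) ^ ε) ^ c := by
      have := one_add_mul_le_pow (a := a) (by linarith) c
      have e : 1 + a = (2 : ℝ) ^ ε := by rw [ha]; ring
      rwa [e] at this
    have h2 : (c : ℝ) ≤ C1 * ((c : ℝ) * a) := by
      have h3 : 1 ≤ C1 * a := by
        have : a⁻¹ * a ≤ C1 * a := mul_le_mul_of_nonneg_right (le_max_right _ _) ha0.le
        rwa [inv_mul_cancel₀ ha0.ne'] at this
      have h4 : (0 : ℝ) ≤ c := by positivity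
      nlinarith
    calc (c : ℝ) + 1 ≤ C1 * ((c : ℝ) * a) + C1 * 1 := by linarith
      _ = C1 * (1 + (c : ℝ) * a) := by ring
      _ ≤ _ := mul_le_mul_of_nonneg_left h1 (by linarith)
  set Y : ℕ := ⌈(2 : ℝ) ^ (1 / ε)⌉₊ with hY
  refine ⟨C1 ^ (Y.factorial ^ n), ?_⟩
  intro K _ _ hK k hk
  have hk0 : k ≠ 0 := by rwa [Ideal.zero_eq_bot]
  set F := normalizedFactors k with hF
  -- the number of divisors
  have h1 : (dvs K k).card ≤ ∏ P ∈ F.toFinset, (F.count P + 1) := by
    rw [← Multiset.card_Iic]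
    apply Finset.card_le_card_of_injOn (fun e => normalizedFactors e)
    · intro e he
      have h2 : k ≤ e := (pf_DF K k hk e).1 (by simpa using he)
      simp only [Finset.coe_Iic, Set.mem_Iic]
      have h3 : e ∣ k := Ideal.dvd_iff_le.2 h2
      exact (dvd_iff_normalizedFactors_le_normalizedFactors (ne_zero_of_dvd_ne_zero hk0 h3)
        hk0).1 h3
    · intro e he e' he' hee
      have h2 : k ≤ e := (pf_DF K k hk e).1 (by simpa using he)
      have h2' : k ≤ e' := (pf_DF K k hk e').1 (by simpa using he')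
      have h3 : e ≠ 0 := ne_zero_of_dvd_ne_zero hk0 (Ideal.dvd_iff_le.2 h2)
      have h3' : e' ≠ 0 := ne_zero_of_dvd_ne_zero hk0 (Ideal.dvd_iff_le.2 h2')
      have h4 := Ideal.prod_normalizedFactors_eq_self h3
      have h4' := Ideal.prod_normalizedFactors_eq_self h3'
      simp only at hee
      rw [← h4, hee, h4']
  have hN : Nf K k = ∏ P ∈ F.toFinset, ((Ideal.absNorm P : ℝ)) ^ F.count P := by
    unfold Nf
    have h2 : Ideal.absNorm k = ∏ P ∈ F.toFinset, Ideal.absNorm P ^ F.count P := by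
      rw [← Finset.prod_multiset_map_count, ← map_multiset_prod,
        Ideal.prod_normalizedFactors_eq_self hk0]
    rw [h2]
    push_cast
    rfl
  have hpr : ∀ P ∈ F.toFinset, Prime P := fun P hP =>
    prime_of_normalized_factor P (Multiset.mem_toFinset.1 hP)
  have hn2 : ∀ P ∈ F.toFinset, 2 ≤ Ideal.absNorm P := by
    intro P hP
    have h4 : Ideal.absNorm P ≠ 0 := fun h0 =>
      (hpr P hP).ne_zero (Ideal.absNorm_eq_zero_iff.1 h0)
    have h5 : Ideal.absNorm P ≠ 1 := fun h1 => (hpr P hP).not_isUnit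
      (Ideal.isUnit_iff.2 (Ideal.absNorm_eq_one_iff.1 h1))
    omega
  have hfac : ∀ P ∈ F.toFinset, ((F.count P : ℝ) + 1) ≤
      (if Ideal.absNorm P ≤ Y then C1 else 1) * ((Ideal.absNorm P : ℝ) ^ ε) ^ F.count P := by
    intro P hP
    have h2 : (2 : ℝ) ≤ Ideal.absNorm P := by exact_mod_cast hn2 P hP
    split_ifs with h
    · refine (hB _).trans ?_
      refine mul_le_mul_of_nonneg_left ?_ (by linarith)
      exact pow_le_pow_left₀ (by positivity) (Real.rpow_le_rpow (by norm_num) h2 hε.le) _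
    · rw [one_mul]
      have h3 : (2 : ℝ) ≤ (Ideal.absNorm P : ℝ) ^ ε := by
        have h4 : (2 : ℝ) ^ (1 / ε) ≤ Ideal.absNorm P := by
          refine (Nat.le_ceil _).trans ?_
          have : Y ≤ Ideal.absNorm P := by omega
          exact_mod_cast this
        calc (2 : ℝ) = ((2 : ℝ) ^ (1 / ε)) ^ ε := by
              rw [← Real.rpow_mul (by norm_num), one_div, inv_mul_cancel₀ hε.ne', Real.rpow_one]
          _ ≤ _ := Real.rpow_le_rpow (by positivity) h4 hε.le
      calc ((F.count P : ℝ) + 1) ≤ 2 ^ F.count P := by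
            have h5 : F.count P + 1 ≤ 2 ^ F.count P := Nat.lt_two_pow_self
            exact_mod_cast h5
        _ ≤ _ := pow_le_pow_left₀ (by norm_num) h3 _
  calc ((dvs K k).card : ℝ) ≤ ∏ P ∈ F.toFinset, ((F.count P : ℝ) + 1) := by exact_mod_cast h1
    _ ≤ ∏ P ∈ F.toFinset, ((if Ideal.absNorm P ≤ Y then C1 else 1) *
          ((Ideal.absNorm P : ℝ) ^ ε) ^ F.count P) :=
        Finset.prod_le_prod (fun P _ => by positivity) hfac
    _ = C1 ^ (F.toFinset.filter (fun P => Ideal.absNorm P ≤ Y)).card * Nf K k ^ ε := by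
        rw [Finset.prod_mul_distrib, Finset.prod_ite, Finset.prod_const, Finset.prod_const_one,
          mul_one, hN]
        congr 1
        rw [← Real.finsetProd_rpow _ _ (fun P _ => by positivity)]
        refine Finset.prod_congr rfl fun P _ => ?_
        rw [← Real.rpow_natCast, ← Real.rpow_natCast, ← Real.rpow_mul (by positivity),
          ← Real.rpow_mul (by positivity), mul_comm]
    _ ≤ _ := by
        refine mul_le_mul_of_nonneg_right ?_ (Real.rpow_nonneg (by unfold Nf; positivity) _)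
        refine pow_le_pow_right₀ hC11 ?_
        rw [← hK]
        exact card_small Y _ (fun P hP => hpr P (Finset.mem_filter.1 hP).1)
          (fun P hP => (Finset.mem_filter.1 hP).2)

end Pool.Agent.H29.THC
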