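import Pool.Agent.H29.TC.Targets

/-!
# CQ: the function `cq`
-/

set_option autoImplicit false

open NumberField
open scoped nonZeroDivisors

namespace Pool.Agent.H29.THC

open Pool.Agent.H25.HK Pool.Agent.H28.RC Pool.Agent.H23.LB Pool.Agent.H29.TC

theorem pf_CQ : T_CQ := by
  intro K _ _ f η M x₀ hf hM hx
  have h1 : ∀ (a : 𝓞 K) (x : K), x - (a : K) * x₀ ∈ (f : FI K) * M →
      cq f η M x₀ x = η (Ideal.Quotient.mk f a) := by
    intro a x hax
    have h : ∃ a : 𝓞 K, x - (a : K) * x₀ ∈ (f : FI K) * M := ⟨a, hax⟩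
    unfold cq
    rw [dif_pos h]
    congr 1
    rw [Ideal.Quotient.mk_eq_mk_iff_sub_mem]
    have h2 := h.choose_spec
    have h3 : ((h.choose - a : 𝓞 K) : K) * x₀ ∈ (f : FI K) * M := by
      have h4 : ((h.choose - a : 𝓞 K) : K) * x₀ =
          (x - (a : K) * x₀) - (x - (h.choose : K) * x₀) := by
        push_cast
        ring
      rw [h4]
      exact ((f : FI K) * M).coeToSubmodule.sub_mem hax h2
    exact (hx.iff _ f le_rfl).1 h3
  refine ⟨h1, ?_, ?_⟩
  · intro x hxM l hl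
    obtain ⟨a, -, ha⟩ := hx.gen x hxM
    rw [h1 a x ha]
    refine h1 a (x + l) ?_
    have h4 : x + l - (a : K) * x₀ = (x - (a : K) * x₀) + l := by ring
    rw [h4]
    exact ((f : FI K) * M).coeToSubmodule.add_mem ha hl
  · intro g hg
    refine ⟨hx.mem, hx.ne, fun y hy => ?_, fun a j hj => hx.iff a j (hg.trans hj)⟩
    obtain ⟨a, ha0, ha⟩ := hx.gen y hy
    refine ⟨a, ha0, ?_⟩
    have h5 : (f : FI K) * M ≤ (g : FI K) * M := by
      gcongr
    exact h5 ha

end Pool.Agent.H29.THC
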