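import Pool.Agent.H3.HK.GM
import Pool.Agent.H3.HK.LB
import Pool.Agent.H3.HK.TH
import Pool.Agent.H3.HK.GA
import Pool.Agent.H16.HK.GS
import Pool.Agent.H16.HK.PO
import Pool.Agent.H16.HK.PS
import Pool.Agent.H41.HK.BI
import Pool.Agent.H41.HK.G1
import Pool.Agent.H41.HK.GI
import Pool.Agent.H41.HK.JA
import Pool.Agent.H41.HK.UN
import Pool.Agent.H63.HK.DS
import Pool.Agent.H66.HK.FD
import Pool.Agent.H66.HK.ME
import Pool.Agent.H63.HK.DU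
import Pool.Agent.H87.HK.UI
import Pool.Agent.H87.HK.YC
import Pool.Agent.H87.HK.CT
import Pool.Agent.H48.RC.RX
import Pool.Agent.H68.RC.LB
import Pool.Agent.H92.RC.ID
import Pool.Agent.H23.GLA.A1
import Pool.Agent.H23.GLA.GD
import Pool.Agent.H26.GLA.AZ
import Pool.Agent.H26.GLA.WF
import Pool.Agent.H26.GLA.CH
import Pool.Agent.H94.GLA.BE
import Pool.Agent.H94.GLA.OR
import Pool.Agent.H94.GLA.PU
import Pool.Agent.H94.GLA.GL
import Pool.Agent.H6.GLA.CF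
import Pool.Agent.H77.GLA.FN
import Pool.Agent.H77.GLA.SE
import Pool.Agent.H14.GLA.FP
import Pool.Agent.H14.GLA.NS
import Pool.Agent.H56.GLA.GZ
import Pool.Agent.H69.LB.LA
import Pool.Agent.H69.LB.SY
import Pool.Agent.H61.GLA.MS
import Pool.Agent.H61.GLA.LF
import Pool.Agent.H65.GLA.MV
import Pool.Agent.H65.GLA.RR
import Pool.Agent.H33.GLA.PH
import Pool.Agent.H3.GLA.PO
import Pool.Agent.H3.GLA.TZ
import Pool.Agent.H74.GLA.WC

/-!
# Closed forms of the facts used in the assembly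
-/

set_option autoImplicit false

open NumberField NumberField.InfinitePlace Complex

namespace Pool.Agent.H29.THC.Base

open Pool.Agent.H23.LB

theorem c_TH : Pool.Agent.H25.HK.T_TH :=
  Pool.Agent.H3.HK.th_fe (Pool.Agent.H16.HK.po Pool.Agent.H16.HK.ps Pool.Agent.H3.HK.ga
    Pool.Agent.H16.HK.gs) Pool.Agent.H3.HK.gm Pool.Agent.H3.HK.lb

theorem c_YC : Pool.Agent.H25.HK.T_YC := Pool.Agent.H87.HK.yc_main

theorem c_UI : Pool.Agent.H25.HK.T_UI := Pool.Agent.H87.HK.ui c_YC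

theorem c_DU : Pool.Agent.H25.HK.T_DU := Pool.Agent.H63.HK.du

theorem c_CT : Pool.Agent.H25.HK.T_CT := Pool.Agent.H87.HK.ct c_TH

theorem c_ID : Pool.Agent.H28.RC.T_ID := Pool.Agent.H92.RC.pf_ID

theorem c_RX : Pool.Agent.H28.RC.T_RX := Pool.Agent.H48.RC.pf_RX

theorem c_SM : Pool.Agent.H28.RC.T_SMc := Pool.Agent.H28.RC.pf_SM c_TH

theorem c_PU : T_PU := Pool.Agent.H94.GLA.pf_PU

theorem c_CF : T_CF := Pool.Agent.H6.GLA.pf_CF

theorem c_RR : T_RR := Pool.Agent.H65.GLA.pf_RR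

theorem c_OR : T_OR := Pool.Agent.H94.GLA.pf_OR c_PU c_CF c_RR c_ID c_RX

theorem c_PO : T_PO' := Pool.Agent.H3.GLA.pf_PO c_OR c_CF

theorem c_TZ : T_TZ := Pool.Agent.H3.GLA.pf_TZ

theorem c_WF : T_WF := Pool.Agent.H26.GLA.pf_WF c_TZ

theorem c_WC : T_WC := Pool.Agent.H74.GLA.pf_WC c_TH c_YC c_DU

theorem c_AZ : T_AZ := Pool.Agent.H26.GLA.pf_AZ c_WF c_WC

theorem c_LA : T_LA := Pool.Agent.H69.LB.pf_LA c_AZ c_PO

theorem c_SY : T_SY := Pool.Agent.H69.LB.pf_SY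

theorem c_GD : T_GD := Pool.Agent.H23.GLA.pf_GD

theorem c_GL : T_GL := Pool.Agent.H94.GLA.pf_GL

theorem c_SE : T_SE := Pool.Agent.H77.GLA.pf_SE

theorem c_BE : T_BE := Pool.Agent.H94.GLA.pf_BE c_OR c_PU

theorem c_FP : T_FP := Pool.Agent.H14.GLA.pf_FP c_TH c_YC c_UI c_CT c_DU

theorem c_NS : T_NS :=
  Pool.Agent.H14.GLA.pf_NS Pool.Agent.H3.HK.gm (Pool.Agent.H68.RC.pf_LB Pool.Agent.H3.HK.lb)
    c_DU c_YC

theorem c_MS : T_MS := Pool.Agent.H61.GLA.pf_MS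

theorem c_LF : T_LF := Pool.Agent.H61.GLA.pf_LF

theorem c_MV : T_MV := Pool.Agent.H65.GLA.pf_MV c_NS c_MS c_LF c_FP

theorem c_GI : Pool.Agent.H25.HK.T_GI :=
  Pool.Agent.H41.HK.gi Pool.Agent.H41.HK.ja Pool.Agent.H41.HK.g1 c_YC

theorem c_ME : Pool.Agent.H25.HK.T_ME :=
  Pool.Agent.H66.HK.me Pool.Agent.H41.HK.bi Pool.Agent.H41.HK.un c_GI
    Pool.Agent.H66.HK.fd c_TH Pool.Agent.H63.HK.ds c_CT c_YC c_UI

theorem c_A1 : T_A1 := Pool.Agent.H23.GLA.pf_A1 c_FP c_ME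

theorem c_GZ : T_GZ := Pool.Agent.H56.GLA.pf_GZ Pool.Agent.H41.HK.ja c_YC c_PU

theorem c_CH : T_CH := Pool.Agent.H26.GLA.pf_CH

end Pool.Agent.H29.THC.Base
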