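import Pool.Agent.H29.TC.Targets

/-!
# FG: the transfer by Gauss sums in a finite ring
-/

set_option autoImplicit false

open Finset

namespace Pool.Agent.H29.THC

open Pool.Agent.H29.TC

theorem sq_norm (z : ℂ) : ((‖z‖ ^ 2 : ℝ) : ℂ) = z * (starRingEnd ℂ) z := by
  rw [Complex.mul_conj']
  push_cast
  rfl

/-- Parseval on a finite abelian group -/
theorem pars (H : Type) [CommGroup H] [Fintype H] (F : H → ℂ) :
    ∑ ψ : AddChar (Additive H) ℂ, ‖∑ h : H, ψ (Additive.ofMul h) * F h‖ ^ 2 =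
      (Fintype.card H : ℝ) * ∑ h, ‖F h‖ ^ 2 := by
  classical
  have key : ∀ ψ : AddChar (Additive H) ℂ,
      ((‖∑ h : H, ψ (Additive.ofMul h) * F h‖ ^ 2 : ℝ) : ℂ) =
      ∑ h : H, ∑ h' : H, ψ (Additive.ofMul h + -Additive.ofMul h') *
        (F h * (starRingEnd ℂ) (F h')) := by
    intro ψ
    rw [sq_norm, map_sum, Finset.sum_mul_sum]
    refine Finset.sum_congr rfl fun h _ => Finset.sum_congr rfl fun h' _ => ?_
    rw [map_mul, AddChar.map_add_eq_mul, AddChar.map_neg_eq_conj]
    ring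
  have h1 : ((∑ ψ : AddChar (Additive H) ℂ,
      ‖∑ h : H, ψ (Additive.ofMul h) * F h‖ ^ 2 : ℝ) : ℂ) =
      (((Fintype.card H : ℝ) * ∑ h, ‖F h‖ ^ 2 : ℝ) : ℂ) := by
    rw [Complex.ofReal_sum, Finset.sum_congr rfl fun ψ _ => key ψ, Finset.sum_comm]
    have h2 : ∀ h : H, ∑ ψ : AddChar (Additive H) ℂ, ∑ h' : H,
        ψ (Additive.ofMul h + -Additive.ofMul h') * (F h * (starRingEnd ℂ) (F h')) =
        (Fintype.card H : ℂ) * (F h * (starRingEnd ℂ) (F h)) := by
      intro h
      rw [Finset.sum_comm]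
      have h3 : ∀ h' : H, ∑ ψ : AddChar (Additive H) ℂ,
          ψ (Additive.ofMul h + -Additive.ofMul h') * (F h * (starRingEnd ℂ) (F h')) =
          if h' = h then (Fintype.card H : ℂ) * (F h * (starRingEnd ℂ) (F h)) else 0 := by
        intro h'
        rw [← Finset.sum_mul, AddChar.sum_apply_eq_ite]
        by_cases hh : h' = h
        · subst hh
          rw [if_pos (add_neg_cancel _), if_pos rfl,
            Fintype.card_congr (Additive.toMul : Additive H ≃ H)]
        · rw [if_neg, if_neg hh, zero_mul]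
          intro h4
          apply hh
          have h5 : Additive.ofMul h = Additive.ofMul h' := by
            rw [← sub_eq_add_neg, sub_eq_zero] at h4
            exact h4
          exact (Additive.ofMul.injective h5).symm
      rw [Finset.sum_congr rfl fun h' _ => h3 h', Finset.sum_ite_eq' Finset.univ h]
      simp
    rw [Finset.sum_congr rfl fun h _ => h2 h, ← Finset.mul_sum]
    push_cast
    congr 1
    refine Finset.sum_congr rfl fun h _ => ?_
    rw [Complex.mul_conj']
  exact_mod_cast h1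

section

variable {R : Type} [CommRing R]

open scoped Classical in
/-- the character of the units modulo `G`, extended by zero -/
noncomputable def lam (G : Ideal R) (ψ : AddChar (Additive (R ⧸ G)ˣ) ℂ) (a : R) : ℂ :=
  if h : IsUnit (Ideal.Quotient.mk G a) then ψ (Additive.ofMul h.unit) else 0

theorem lam_unit (G : Ideal R) (ψ : AddChar (Additive (R ⧸ G)ˣ) ℂ) (a : R) (u : (R ⧸ G)ˣ)
    (h : Ideal.Quotient.mk G a = u) : lam G ψ a = ψ (Additive.ofMul u) := by
  have h1 : IsUnit (Ideal.Quotient.mk G a) := h ▸ u.isUnit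
  unfold lam
  rw [dif_pos h1]
  congr 2
  exact Units.ext (by rw [IsUnit.unit_spec, h])

theorem lam_one (G : Ideal R) (ψ : AddChar (Additive (R ⧸ G)ˣ) ℂ) (a : R)
    (h : a - 1 ∈ G) : lam G ψ a = 1 := by
  have h1 : Ideal.Quotient.mk G a = ((1 : (R ⧸ G)ˣ) : R ⧸ G) := by
    rw [Units.val_one, ← map_one (Ideal.Quotient.mk G), Ideal.Quotient.mk_eq_mk_iff_sub_mem]
    exact h
  rw [lam_unit G ψ a 1 h1, ofMul_one, AddChar.map_zero_eq_one]

theorem lam_mul (G : Ideal R) (ψ : AddChar (Additive (R ⧸ G)ˣ) ℂ) (a b : R) :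
    lam G ψ (a * b) = lam G ψ a * lam G ψ b := by
  by_cases ha : IsUnit (Ideal.Quotient.mk G a)
  · by_cases hb : IsUnit (Ideal.Quotient.mk G b)
    · rw [lam_unit G ψ a ha.unit ha.unit_spec.symm, lam_unit G ψ b hb.unit hb.unit_spec.symm,
        lam_unit G ψ (a * b) (ha.unit * hb.unit), ofMul_mul, AddChar.map_add_eq_mul]
      rw [Units.val_mul, ha.unit_spec, hb.unit_spec, map_mul]
    · unfold lam
      rw [dif_neg hb, mul_zero, dif_neg]
      rw [map_mul]
      exact fun h => hb (isUnit_of_mul_isUnit_right h)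
  · unfold lam
    rw [dif_neg ha, zero_mul, dif_neg]
    rw [map_mul]
    exact fun h => ha (isUnit_of_mul_isUnit_left h)

variable [Fintype R]

theorem lam_mc (G : Ideal R) (ψ : AddChar (Additive (R ⧸ G)ˣ) ℂ) (η : R → ℂ) (hη : MC η) :
    MC (fun a => lam G ψ a * η a) where
  one := by rw [lam_one G ψ 1 (by simp), hη.one, one_mul]
  mul x y := by rw [lam_mul, hη.mul]; ring
  unit x hx := by
    have h1 : IsUnit (Ideal.Quotient.mk G x) := hx.map _
    have hfin : Finite (Additive (R ⧸ G)ˣ) := by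
      have : Finite (R ⧸ G) := Finite.of_surjective _ Ideal.Quotient.mk_surjective
      infer_instance
    rw [norm_mul, hη.unit x hx, mul_one, lam_unit G ψ x h1.unit h1.unit_spec.symm]
    exact AddChar.norm_apply ψ _
  zero x hx := by rw [hη.zero x hx, mul_zero]

open scoped Classical in
/-- Parseval for functions supported on the units -/
theorem pv (G : Ideal R) (X : Finset R) (hX : ∀ x : R, ∃! r, r ∈ X ∧ x - r ∈ G) (c : R → ℂ)
    (hc : ∀ a, ¬ IsUnit a → c a = 0) [Fintype (R ⧸ G)ˣ] :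
    ∑ ψ : AddChar (Additive (R ⧸ G)ˣ) ℂ, ‖∑ a : R, lam G ψ a * c a‖ ^ 2 =
      (Fintype.card (R ⧸ G)ˣ : ℝ) *
        ∑ r ∈ X, ‖∑ a : R, (if a - r ∈ G then c a else 0)‖ ^ 2 := by
  have : Finite (R ⧸ G) := Finite.of_surjective _ Ideal.Quotient.mk_surjective
  have : Fintype (R ⧸ G) := Fintype.ofFinite _
  let F : R ⧸ G → ℂ := fun q => ∑ a : R, (if Ideal.Quotient.mk G a = q then c a else 0)
  have h1 : ∑ r ∈ X, ‖∑ a : R, (if a - r ∈ G then c a else 0)‖ ^ 2 = ∑ q : R ⧸ G, ‖F q‖ ^ 2 := by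
    refine Finset.sum_bij (fun r _ => Ideal.Quotient.mk G r) (fun _ _ => Finset.mem_univ _)
      (fun r hr r' hr' h => ?_) (fun q _ => ?_) (fun r _ => ?_)
    · obtain ⟨s, -, hs⟩ := hX r
      have e1 := hs r ⟨hr, by simp⟩
      have e2 := hs r' ⟨hr', (Ideal.Quotient.mk_eq_mk_iff_sub_mem _ _).1 h⟩
      rw [e1, e2]
    · obtain ⟨x, rfl⟩ := Ideal.Quotient.mk_surjective q
      obtain ⟨r, ⟨hr, hxr⟩, -⟩ := hX x
      exact ⟨r, hr, ((Ideal.Quotient.mk_eq_mk_iff_sub_mem _ _).2 hxr).symm⟩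
    · congr 2
      refine Finset.sum_congr rfl fun a _ => ?_
      rw [Ideal.Quotient.mk_eq_mk_iff_sub_mem]
  have h2 : ∑ q : R ⧸ G, ‖F q‖ ^ 2 = ∑ u : (R ⧸ G)ˣ, ‖F u‖ ^ 2 := by
    symm
    refine Fintype.sum_of_injective (fun u : (R ⧸ G)ˣ => (u : R ⧸ G)) Units.val_injective
      (fun u => ‖F u‖ ^ 2) (fun q => ‖F q‖ ^ 2) (fun q hq => ?_) (fun u => rfl)
    have h3 : F q = 0 := by
      refine Finset.sum_eq_zero fun a _ => ?_
      split_ifs with h
      · refine hc a fun ha => hq ?_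
        have h4 : IsUnit (Ideal.Quotient.mk G a) := ha.map _
        exact ⟨h4.unit, by
          show (h4.unit : R ⧸ G) = q
          rw [IsUnit.unit_spec, h]⟩
      · rfl
    simp only [h3, norm_zero]
    norm_num
  rw [h1, h2, ← pars]
  refine Finset.sum_congr rfl fun ψ _ => ?_
  congr 2
  -- regroup
  have h3 : ∀ a : R, lam G ψ a * c a = ∑ u : (R ⧸ G)ˣ, ψ (Additive.ofMul u) *
      (if Ideal.Quotient.mk G a = u then c a else 0) := by
    intro a
    by_cases ha : IsUnit a
    · have h4 : IsUnit (Ideal.Quotient.mk G a) := ha.map _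
      rw [Finset.sum_eq_single h4.unit]
      · rw [if_pos h4.unit_spec.symm, lam_unit G ψ a h4.unit h4.unit_spec.symm]
      · intro u _ hu
        rw [if_neg, mul_zero]
        intro h5
        exact hu (Units.ext (by rw [IsUnit.unit_spec, h5]))
      · intro h5
        exact absurd (Finset.mem_univ _) h5
    · rw [hc a ha]
      simp
  rw [Finset.sum_congr rfl fun a _ => h3 a, Finset.sum_comm]
  refine Finset.sum_congr rfl fun u _ => ?_
  rw [← Finset.mul_sum]

/-- Gauss sums -/
theorem gauss (η θ : R → ℂ) (hη : MC η) (hθ : AC θ)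
    (hp : ∀ w : R, w ≠ 0 → ∃ r : R, IsUnit (1 + r * w) ∧ η (1 + r * w) ≠ 1)
    (hg : ∀ w : R, (∀ r : R, θ (r * w) = 1) → w = 0) :
    ∃ τ : ℂ, ‖τ‖ ^ 2 = (Fintype.card R : ℝ) ∧
      ∀ y : R, ∑ a : R, η a * θ (a * y) = (starRingEnd ℂ) (η y) * τ := by
  classical
  set τ : ℂ := ∑ a : R, η a * θ a with hτ
  have hval : ∀ y : R, ∑ a : R, η a * θ (a * y) = (starRingEnd ℂ) (η y) * τ := by
    intro y
    by_cases hy : IsUnit y
    · obtain ⟨u, rfl⟩ := hy
      rw [hτ, Finset.mul_sum]
      rw [← Equiv.sum_comp (Units.mulRight u) (fun a => (starRingEnd ℂ) (η u) * (η a * θ a))]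
      refine Finset.sum_congr rfl fun a _ => ?_
      simp only [Units.mulRight_apply]
      rw [hη.mul]
      have := hη.conj_mul u.isUnit
      linear_combination (-(η a * θ (a * u))) * this
    · rw [hη.zero y hy, map_zero, zero_mul]
      have h1 : ∃ w : R, w * y = 0 ∧ w ≠ 0 := by
        rw [isUnit_iff_mem_nonZeroDivisors_of_finite] at hy
        by_contra hcon
        push Not at hcon
        apply hy
        rw [mem_nonZeroDivisors_iff_right]
        exact hcon
      obtain ⟨w, hwy, hw⟩ := h1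
      obtain ⟨r, hu, hne⟩ := hp w hw
      obtain ⟨u, hu'⟩ := hu
      have h2 : ∑ a : R, η a * θ (a * y) = η u * ∑ a : R, η a * θ (a * y) := by
        rw [Finset.mul_sum, ← Equiv.sum_comp (Units.mulRight u) (fun a => η a * θ (a * y))]
        refine Finset.sum_congr rfl fun a _ => ?_
        simp only [Units.mulRight_apply]
        rw [hη.mul]
        have h3 : a * u * y = a * y := by
          rw [hu']
          linear_combination (a * r) * hwy
        rw [h3]
        ring
      have h4 : (1 - η u) * ∑ a : R, η a * θ (a * y) = 0 := by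
        rw [sub_mul, one_mul, ← h2, sub_self]
      rcases mul_eq_zero.1 h4 with h5 | h5
      · exfalso
        apply hne
        rw [← hu']
        linear_combination -h5
      · exact h5
  refine ⟨τ, ?_, hval⟩
  have hsum : ∀ c : R, ∑ y : R, θ (c * y) = if c = 0 then (Fintype.card R : ℂ) else 0 := by
    intro c
    split_ifs with hc
    · subst hc
      simp [hθ.zero]
    · refine hom_sum (fun y => θ (c * y)) (fun x y => by rw [mul_add, hθ.add]) ?_
      by_contra hcon
      push Not at hcon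
      exact hc (hg c fun r => by rw [mul_comm]; exact hcon r)
  -- the sum over `y`
  have h1 : ((∑ y : R, ‖∑ a : R, η a * θ (a * y)‖ ^ 2 : ℝ) : ℂ) =
      ((Fintype.card R : ℝ) * ∑ a : R, ‖η a‖ ^ 2 : ℝ) := by
    rw [Complex.ofReal_sum]
    have h2 : ∀ y : R, ((‖∑ a : R, η a * θ (a * y)‖ ^ 2 : ℝ) : ℂ) =
        ∑ a : R, ∑ a' : R, (η a * (starRingEnd ℂ) (η a')) * θ ((a - a') * y) := by
      intro y
      rw [sq_norm, map_sum, Finset.sum_mul_sum]
      refine Finset.sum_congr rfl fun a _ => Finset.sum_congr rfl fun a' _ => ?_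
      have h3 : θ (a * y) = θ ((a - a') * y) * θ (a' * y) := by
        rw [← hθ.add]
        congr 1
        ring
      have h4 : θ (a' * y) * (starRingEnd ℂ) (θ (a' * y)) = 1 := by
        rw [← sq_norm, hθ.norm]
        norm_num
      rw [map_mul, h3]
      linear_combination (η a * (starRingEnd ℂ) (η a') * θ ((a - a') * y)) * h4
    rw [Finset.sum_congr rfl fun y _ => h2 y, Finset.sum_comm]
    have h5 : ∀ a : R, ∑ y : R, ∑ a' : R, (η a * (starRingEnd ℂ) (η a')) * θ ((a - a') * y) =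
        (Fintype.card R : ℂ) * ((‖η a‖ ^ 2 : ℝ) : ℂ) := by
      intro a
      rw [Finset.sum_comm]
      have h6 : ∀ a' : R, ∑ y : R, (η a * (starRingEnd ℂ) (η a')) * θ ((a - a') * y) =
          if a' = a then (Fintype.card R : ℂ) * ((‖η a‖ ^ 2 : ℝ) : ℂ) else 0 := by
        intro a'
        rw [← Finset.mul_sum, hsum]
        by_cases hh : a' = a
        · subst hh
          rw [if_pos (sub_self _), if_pos rfl, sq_norm]
          ring
        · rw [if_neg (fun h => hh (sub_eq_zero.1 h).symm), if_neg hh, mul_zero]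
      rw [Finset.sum_congr rfl fun a' _ => h6 a', Finset.sum_ite_eq' Finset.univ a]
      simp
    rw [Finset.sum_congr rfl fun a _ => h5 a, ← Finset.mul_sum]
    push_cast
    rfl
  have h2 : (∑ y : R, ‖∑ a : R, η a * θ (a * y)‖ ^ 2 : ℝ) =
      (Fintype.card R : ℝ) * ∑ a : R, ‖η a‖ ^ 2 := by
    exact_mod_cast h1
  have h3 : (∑ y : R, ‖∑ a : R, η a * θ (a * y)‖ ^ 2 : ℝ) = ‖τ‖ ^ 2 * ∑ a : R, ‖η a‖ ^ 2 := by
    rw [Finset.mul_sum]
    refine Finset.sum_congr rfl fun y _ => ?_
    rw [hval y, norm_mul, RCLike.norm_conj]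
    ring
  have h4 : 0 < ∑ a : R, ‖η a‖ ^ 2 := by
    refine Finset.sum_pos' (fun a _ => by positivity) ⟨1, Finset.mem_univ _, ?_⟩
    rw [hη.one]
    norm_num
  rw [h3] at h2
  exact mul_right_cancel₀ h4.ne' h2

end

open scoped Classical in
theorem pf_FG : T_FG := by
  intro R _ _ G η θ hη hθ hp hg he X Y hX hY
  refine ⟨?_, ?_⟩
  · intro r _ hnt
    obtain ⟨s, hs, hsG⟩ := he 1 one_ne_zero
    rw [mul_one] at hs hsG
    obtain ⟨t, hu, hne⟩ := hp s hs
    obtain ⟨u, hu'⟩ := hu
    have h2 : ∑ a : R, (if a - r ∈ G then η a else 0) =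
        η u * ∑ a : R, (if a - r ∈ G then η a else 0) := by
      rw [Finset.mul_sum, ← Equiv.sum_comp (Units.mulRight u)
        (fun a => if a - r ∈ G then η a else 0)]
      refine Finset.sum_congr rfl fun a _ => ?_
      simp only [Units.mulRight_apply]
      have h3 : a * u - r ∈ G ↔ a - r ∈ G := by
        have h4 : a * (u : R) - r = (a - r) + (a * t) * s := by
          rw [hu']
          ring
        rw [h4]
        exact (G.add_mem_iff_left (G.mul_mem_left _ hsG))
      by_cases h5 : a - r ∈ G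
      · rw [if_pos h5, if_pos (h3.2 h5), hη.mul]
        ring
      · rw [if_neg h5, if_neg (fun h => h5 (h3.1 h)), mul_zero]
    have h4 : (1 - η u) * ∑ a : R, (if a - r ∈ G then η a else 0) = 0 := by
      rw [sub_mul, one_mul, ← h2, sub_self]
    rcases mul_eq_zero.1 h4 with h5 | h5
    · exfalso
      apply hne
      rw [← hu']
      linear_combination -h5
    · exact h5
  · intro b
    have hfq : Finite (R ⧸ G) := Finite.of_surjective _ Ideal.Quotient.mk_surjective
    have : Fintype (R ⧸ G)ˣ := Fintype.ofFinite _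
    -- the twisted characters are primitive
    have hpl : ∀ ψ : AddChar (Additive (R ⧸ G)ˣ) ℂ, ∀ w : R, w ≠ 0 →
        ∃ r : R, IsUnit (1 + r * w) ∧ lam G ψ (1 + r * w) * η (1 + r * w) ≠ 1 := by
      intro ψ w hw
      obtain ⟨s, hs, hsG⟩ := he w hw
      obtain ⟨t, hu, hne⟩ := hp _ hs
      refine ⟨t * s, ?_, ?_⟩
      · rw [mul_assoc]
        exact hu
      · rw [mul_assoc, lam_one, one_mul]
        · exact hne
        · rw [add_sub_cancel_left]
          exact G.mul_mem_left _ hsG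
    have hgs : ∀ ψ : AddChar (Additive (R ⧸ G)ˣ) ℂ, ∃ τ : ℂ, ‖τ‖ ^ 2 = (Fintype.card R : ℝ) ∧
        ∀ y : R, ∑ a : R, lam G ψ a * η a * θ (a * y) =
          (starRingEnd ℂ) (lam G ψ y * η y) * τ := fun ψ =>
      gauss (fun a => lam G ψ a * η a) θ (lam_mc G ψ η hη) hθ (hpl ψ) hg
    have hcard : (0 : ℝ) < Fintype.card (R ⧸ G)ˣ := by exact_mod_cast Fintype.card_pos
    -- the left side
    have hL := pv G X hX (fun a => η a * ∑ y : R, θ (a * y) * b y) (fun a ha => by
      rw [hη.zero a ha, zero_mul])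
    have hR := pv G Y hY (fun y => η y * (starRingEnd ℂ) (b y)) (fun a ha => by
      rw [hη.zero a ha, zero_mul])
    have hLR : ∀ ψ : AddChar (Additive (R ⧸ G)ˣ) ℂ,
        ‖∑ a : R, lam G ψ a * (η a * ∑ y : R, θ (a * y) * b y)‖ ^ 2 =
        (Fintype.card R : ℝ) * ‖∑ y : R, lam G ψ y * (η y * (starRingEnd ℂ) (b y))‖ ^ 2 := by
      intro ψ
      obtain ⟨τ, hτ, hval⟩ := hgs ψ
      have h1 : ∑ a : R, lam G ψ a * (η a * ∑ y : R, θ (a * y) * b y) =
          τ * (starRingEnd ℂ) (∑ y : R, lam G ψ y * (η y * (starRingEnd ℂ) (b y))) := by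
        have h2 : ∀ a : R, lam G ψ a * (η a * ∑ y : R, θ (a * y) * b y) =
            ∑ y : R, (lam G ψ a * η a * θ (a * y)) * b y := by
          intro a
          rw [Finset.mul_sum, Finset.mul_sum]
          refine Finset.sum_congr rfl fun y _ => ?_
          ring
        rw [Finset.sum_congr rfl fun a _ => h2 a, Finset.sum_comm, map_sum, Finset.mul_sum]
        refine Finset.sum_congr rfl fun y _ => ?_
        rw [← Finset.sum_mul, hval y, map_mul, map_mul, map_mul, Complex.conj_conj]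
        ring
      rw [h1, norm_mul, RCLike.norm_conj, mul_pow, hτ]
    have h1 : (Fintype.card (R ⧸ G)ˣ : ℝ) *
        ∑ r ∈ X, ‖∑ a : R, (if a - r ∈ G then η a * ∑ y : R, θ (a * y) * b y else 0)‖ ^ 2 =
        (Fintype.card (R ⧸ G)ˣ : ℝ) * ((Fintype.card R : ℝ) *
          ∑ r ∈ Y, ‖∑ y : R, (if y - r ∈ G then η y * (starRingEnd ℂ) (b y) else 0)‖ ^ 2) := by
      rw [← hL, Finset.sum_congr rfl fun ψ _ => hLR ψ, ← Finset.mul_sum, hR]
      ring
    have h2 := mul_left_cancel₀ hcard.ne' h1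
    have h3 : ∑ r ∈ X, ‖∑ y : R, (∑ a : R, (if a - r ∈ G then η a * θ (a * y) else 0)) *
        b y‖ ^ 2 =
        ∑ r ∈ X, ‖∑ a : R, (if a - r ∈ G then η a * ∑ y : R, θ (a * y) * b y else 0)‖ ^ 2 := by
      refine Finset.sum_congr rfl fun r _ => ?_
      congr 2
      simp only [Finset.sum_mul]
      rw [Finset.sum_comm]
      refine Finset.sum_congr rfl fun a _ => ?_
      split_ifs
      · rw [Finset.mul_sum]
        refine Finset.sum_congr rfl fun y _ => ?_
        ring
      · simp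
    rw [h3, h2]
    congr 1
    refine Finset.sum_congr rfl fun r _ => ?_
    rw [← RCLike.norm_conj, map_sum]
    congr 2
    refine Finset.sum_congr rfl fun y _ => ?_
    split_ifs
    · rw [map_mul, Complex.conj_conj]
    · exact map_zero _

end Pool.Agent.H29.THC
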