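import Pool.Agent.H29.TC.Targets
import Pool.Agent.H23.GLA.ASM

/-!
# Assembly: thin cosets of Hecke characters
-/

set_option autoImplicit false

open NumberField NumberField.InfinitePlace NumberField.Units
  NumberField.Units.dirichletUnitTheorem MeasureTheory Set Filter Complex
open scoped nonZeroDivisors ENNReal

namespace Pool.Agent.H29.THC

open Pool.Agent.H25.HK Pool.Agent.H28.RC Pool.Agent.H23.LB Pool.Agent.H29.TC
  Pool.Agent.H23.GLA

/-- (PB) the number of residue classes prime to `q`. -/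
def T_PB : Prop :=
  ∀ (n : ℕ) (ε : ℝ), 0 < ε → ∃ C : ℝ, ∀ (K : Type) [Field K] [NumberField K],
    Module.finrank ℚ K = n → ∀ q : Ideal (𝓞 K), q ≠ ⊥ → Nf K q ≤ C * Nf K q ^ ε * Phi K q

section NF

variable {K : Type} [Field K] [NumberField K]

omit [NumberField K] in
theorem sup_mul_top {q I J : Ideal (𝓞 K)} : I * J ⊔ q = ⊤ ↔ I ⊔ q = ⊤ ∧ J ⊔ q = ⊤ := by
  constructor
  · intro h
    exact ⟨top_le_iff.1 (h ▸ sup_le_sup_right Ideal.mul_le_left q),
      top_le_iff.1 (h ▸ sup_le_sup_right Ideal.mul_le_right q)⟩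
  · rintro ⟨h1, h2⟩
    rw [← Ideal.isCoprime_iff_sup_eq] at h1 h2 ⊢
    exact h1.mul_left h2

open scoped Classical in
/-- the trivial character modulo `q` -/
noncomputable def tr (q : Ideal (𝓞 K)) : HC K q where
  ψ I := if I ⊔ q = ⊤ ∧ I ≠ ⊥ then 1 else 0
  S := ∅
  ν := 0
  map_top := if_pos ⟨top_sup_eq q, top_ne_bot⟩
  map_mul I J := by
    by_cases hI : I ⊔ q = ⊤ ∧ I ≠ ⊥
    · by_cases hJ : J ⊔ q = ⊤ ∧ J ≠ ⊥
      · rw [if_pos hI, if_pos hJ, if_pos ⟨sup_mul_top.2 ⟨hI.1, hJ.1⟩,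
          mul_ne_zero hI.2 hJ.2⟩, one_mul]
      · rw [if_pos hI, if_neg hJ, if_neg, mul_zero]
        rintro ⟨h1, h2⟩
        exact hJ ⟨(sup_mul_top.1 h1).2, right_ne_zero_of_mul h2⟩
    · rw [if_neg hI, if_neg, zero_mul]
      rintro ⟨h1, h2⟩
      exact hI ⟨(sup_mul_top.1 h1).1, left_ne_zero_of_mul h2⟩
  map_bot := if_neg fun h => h.2 rfl
  norm_one I h1 h2 := by
    rw [if_pos ⟨h2, h1⟩, norm_one]
  eq_zero I h := if_neg fun h1 => h h1.1
  princ a h1 h2 := by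
    have h3 : Ideal.span {a} ⊔ q = ⊤ := by
      rw [Ideal.eq_top_iff_one]
      have : (1 : 𝓞 K) = a - (a - 1) := by ring
      rw [this]
      exact sub_mem (Ideal.mem_sup_left (Ideal.mem_span_singleton_self a))
        (Ideal.mem_sup_right h2)
    rw [if_pos ⟨h3, by simpa using h1⟩]
    unfold sg ph
    simp
  norm_zero := by simp

theorem tr_mem (q : Ideal (𝓞 K)) {R : ℝ} (hR : 0 < R) : tr q ∈ fam K q R := by
  intro v
  simp only [tr, Pi.zero_apply, abs_zero]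
  exact hR.le

theorem HC_ext {f : Ideal (𝓞 K)} {χ χ' : HC K f} (h1 : χ.ψ = χ'.ψ) (h2 : χ.S = χ'.S)
    (h3 : χ.ν = χ'.ν) : χ = χ' := by
  cases χ
  cases χ'
  simp only at h1 h2 h3
  subst h1
  subst h2
  subst h3
  rfl

theorem tw_tr {l g k : Ideal (𝓞 K)} (χ : HC K (fk l g k)) :
    tw χ (tr (l * g)) (fk_le l g k) = χ := by
  refine HC_ext ?_ ?_ ?_
  · funext I
    simp only [tw, tr]
    by_cases hI : I = ⊥
    · rw [hI, χ.map_bot, zero_mul]
    by_cases h : I ⊔ (l * g) = ⊤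
    · rw [if_pos ⟨h, hI⟩, mul_one]
    · rw [if_neg fun h1 => h h1.1, mul_zero]
      symm
      apply χ.eq_zero
      intro h1
      exact h (top_le_iff.1 (h1 ▸ sup_le_sup_left (fk_le l g k) I))
  · ext v
    simp [tw, tr, Finset.mem_symmDiff]
  · simp [tw, tr]

omit [NumberField K] in
theorem fk_ne {l g k : Ideal (𝓞 K)} (hG : GK l g k) : fk l g k ≠ ⊥ :=
  mul_ne_zero hG.l_ne (mul_ne_zero hG.g_ne (pow_ne_zero _ hG.k_ne))

end NF

theorem real1 (x B0 C1 t qe qE d P H : ℝ) (hB0 : 0 ≤ B0) (hC1 : 0 ≤ C1)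
    (ht : 1 ≤ t) (hqe : 0 ≤ qe) (hqE : qe * qe = qE) (hqE1 : 1 ≤ qE) (hd : 1 ≤ d) (hP : 0 ≤ P)
    (h1 : x ^ 2 ≤ B0 * t * qe * H) (h3 : H ≤ C1 * (d ^ (1 / 2 : ℝ) * qe) * P) :
    x ≤ (B0 * C1 + 1) * t * qE * (d ^ (1 / 4 : ℝ) * P ^ (1 / 2 : ℝ)) := by
  have e1 : (d ^ (1 / 4 : ℝ)) ^ 2 = d ^ (1 / 2 : ℝ) := by
    rw [← Real.rpow_natCast, ← Real.rpow_mul (by linarith)]
    norm_num
  have e2 : (P ^ (1 / 2 : ℝ)) ^ 2 = P := by
    rw [← Real.rpow_natCast, ← Real.rpow_mul hP]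
    norm_num
  have e6 : 0 ≤ d ^ (1 / 4 : ℝ) := Real.rpow_nonneg (by linarith) _
  have e7 : 0 ≤ P ^ (1 / 2 : ℝ) := Real.rpow_nonneg hP _
  have e8 : 0 ≤ B0 * C1 := mul_nonneg hB0 hC1
  have e9 : 0 ≤ B0 * t * qe := by positivity
  have h4 : x ^ 2 ≤ ((B0 * C1 + 1) * t * qE * (d ^ (1 / 4 : ℝ) * P ^ (1 / 2 : ℝ))) ^ 2 := by
    have e5 : B0 * C1 ≤ (B0 * C1 + 1) ^ 2 := by nlinarith
    calc x ^ 2 ≤ B0 * t * qe * H := h1
      _ ≤ B0 * t * qe * (C1 * (d ^ (1 / 2 : ℝ) * qe) * P) :=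
          mul_le_mul_of_nonneg_left h3 e9
      _ = (B0 * C1) * t * (qe * qe) * (d ^ (1 / 2 : ℝ) * P) := by ring
      _ = (B0 * C1) * t * qE * (d ^ (1 / 2 : ℝ) * P) := by rw [hqE]
      _ ≤ (B0 * C1 + 1) ^ 2 * t ^ 2 * qE ^ 2 * (d ^ (1 / 2 : ℝ) * P) := by
          have f1 : t ≤ t ^ 2 := by nlinarith
          have f2 : qE ≤ qE ^ 2 := by nlinarith
          have f3 : 0 ≤ d ^ (1 / 2 : ℝ) * P := mul_nonneg (by rw [← e1]; positivity) hP
          refine mul_le_mul_of_nonneg_right ?_ f3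
          refine mul_le_mul (mul_le_mul e5 f1 (by linarith) (by positivity)) f2 (by linarith)
            (by positivity)
      _ = _ := by
          rw [← e1]
          nth_rewrite 1 [← e2]
          ring
  exact le_of_sq_le_sq h4 (by positivity)
where
  le_of_sq_le_sq {a b : ℝ} (h : a ^ 2 ≤ b ^ 2) (hb : 0 ≤ b) : a ≤ b := by
    nlinarith [sq_nonneg (a - b), abs_le_of_sq_le_sq' h hb]

/-- the main theorem, for one field and one modulus, from the mean square in the strip -/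
theorem main_tc (hGD : T_GD) (hUZ : T_UZ) (hLA : T_LA) (hSY : T_SY) (hFN : T_FN) (hCH : T_CH)
    (hMC : T_MC) (hHR : T_HR) (hPB : T_PB) (m : ℕ) (hm : 1 ≤ m) (R : ℝ) (hR : 0 < R) :
    ∃ A : ℝ, ∀ ε : ℝ, 0 < ε → ∃ B : ℝ, ∀ (K : Type) [Field K] [NumberField K],
      Module.finrank ℚ K = m → ∀ l g k : Ideal (𝓞 K), GK l g k →
      ∃ L : HC K (fk l g k) → ℂ → ℂ,
        (∀ χ : HC K (fk l g k), (∀ s : ℂ, 1 < s.re → L χ s = χ.series s) ∧
          (∀ s : ℂ, s ≠ 0 → s ≠ 1 → DifferentiableAt ℂ (L χ) s) ∧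
          ((∃ I : Ideal (𝓞 K), χ.ψ I ≠ 0 ∧ χ.ψ I ≠ 1) → Differentiable ℂ (L χ))) ∧
        ∀ χ : HC K (fk l g k), χ ∈ fam K (fk l g k) R → Prk k χ → ∀ T : ℝ, 1 ≤ T →
          (∀ t : HC K (l * g) → ℝ, (∀ ψ, |t ψ| ≤ T) →
            ∑ᶠ ψ ∈ fam K (l * g) R, ‖L (tw χ ψ (fk_le l g k)) (1 / 2 + t ψ * I)‖ ^ 2 ≤
              B * T ^ A * (|(discr K : ℝ)| * Ideal.absNorm (fk l g k)) ^ ε *
                (classNumber K * regulator K *
                  (Ideal.absNorm (l * g) + Ideal.absNorm k))) ∧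
          (∀ t : ℝ, |t| ≤ T → ‖L χ (1 / 2 + t * I)‖ ≤
              B * T ^ A * (|(discr K : ℝ)| * Ideal.absNorm (fk l g k)) ^ ε *
                (|(discr K : ℝ)| ^ (1 / 4 : ℝ) *
                  (Ideal.absNorm (l * g) + Ideal.absNorm k) ^ (1 / 2 : ℝ))) ∧
          (Ideal.absNorm k ≤ Ideal.absNorm (l * g) → ∀ δ : ℝ, 0 < δ →
            ({ψ ∈ fam K (l * g) R | ∃ t : ℝ, |t| ≤ T ∧
              (T * (|(discr K : ℝ)| * Ideal.absNorm (fk l g k))) ^ δ <
                ‖L (tw χ ψ (fk_le l g k)) (1 / 2 + t * I)‖}.ncard : ℝ) ≤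
              B * T ^ A * (|(discr K : ℝ)| * Ideal.absNorm (fk l g k)) ^ (ε - 2 * δ) *
                (fam K (l * g) R).ncard) := by
  classical
  obtain ⟨A, hA⟩ := hMC m hm R
  obtain ⟨c, hc, hcK⟩ := hCH m R hR
  set A0 : ℝ := max A 0 with hA0
  have hA00 : 0 ≤ A0 := le_max_right _ _
  refine ⟨A0 + 2, ?_⟩
  intro ε hε
  set κ : ℝ := min 1 (ε / 16) with hκ
  have hκ0 : 0 < κ := lt_min one_pos (by linarith)
  have hκ1 : κ ≤ 1 := min_le_left _ _
  have hκε : 8 * κ ≤ ε / 2 := by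
    have := min_le_right 1 (ε / 16)
    linarith
  obtain ⟨C0, hC0⟩ := hA κ hκ0 hκ1
  obtain ⟨C1, hC1⟩ := hHR m (ε / 2) (by linarith)
  obtain ⟨C2, hC2⟩ := hPB m (ε / 2) (by linarith)
  set C : ℝ := max C0 0 with hC
  have hCnn : 0 ≤ C := le_max_right _ _
  set C1' : ℝ := max C1 1 with hC1'
  set C2' : ℝ := max C2 1 with hC2'
  have hC1p : 1 ≤ C1' := le_max_right _ _
  have hC2p : 1 ≤ C2' := le_max_right _ _
  set r : ℝ := κ / 8 with hr
  have hr0 : 0 < r := by positivity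
  have hr1 : r ≤ 1 / 8 := by
    rw [hr]
    linarith
  set B0 : ℝ := r⁻¹ ^ 2 * 9 * (C * 4 ^ A0) with hB0
  have hB00 : 0 ≤ B0 := by positivity
  set B1 : ℝ := B0 * C1' + 1 with hB1
  have hB11 : 1 ≤ B1 := by
    rw [hB1]
    have : 0 ≤ B0 * C1' := mul_nonneg hB00 (by linarith)
    linarith
  refine ⟨max (max B0 B1) (B0 * 2 * C2' / c), ?_⟩
  set BB : ℝ := max (max B0 B1) (B0 * 2 * C2' / c) with hBB
  have hBB0 : B0 ≤ BB := (le_max_left _ _).trans (le_max_left _ _)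
  have hBB1 : B1 ≤ BB := (le_max_right _ _).trans (le_max_left _ _)
  have hBB2 : B0 * 2 * C2' / c ≤ BB := le_max_right _ _
  intro K _ _ hK l g k hG
  set f := fk l g k with hf
  have hfne : f ≠ ⊥ := fk_ne hG
  have hlg : l * g ≠ ⊥ := mul_ne_zero hG.l_ne hG.g_ne
  obtain ⟨D⟩ := hSY K f hfne
  have hfin := hFN K (l * g) R hlg
  have hreg : 0 < regulator K := regulator_pos K
  have hh : (0 : ℝ) < classNumber K := by
    exact_mod_cast classNumber_pos K
  set H : ℝ := classNumber K * regulator K * (Ideal.absNorm (l * g) + Ideal.absNorm k) with hH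
  have hH0 : 0 ≤ H := by positivity
  refine ⟨Lc D, ?_, ?_⟩
  · intro χ
    refine ⟨fun s hs => Lc_series hGD hUZ hfne D χ s hs, fun s h0 h1 =>
      Lc_diff hGD hfne D χ s (Lh_diffAt hLA hfne D χ s h0 h1), fun h s =>
      Lc_diff hGD hfne D χ s (Lh_diff hLA hfne D χ h s)⟩
  intro χ hχR hχ T hT
  set q : ℝ := |(discr K : ℝ)| * Ideal.absNorm f with hq
  have hq1 : 1 ≤ q := by
    have h1 := Nf_pos hfne
    have h2 := disc_ge (K := K)
    unfold Nf at h1
    nlinarith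
  have hdq : |(discr K : ℝ)| ≤ q := by
    have h1 := Nf_pos hfne
    have h2 := disc_ge (K := K)
    unfold Nf at h1
    nlinarith
  have hstrip : ∀ s : ℂ, |s.re - 1 / 2| ≤ r → s ≠ 0 ∧ s ≠ 1 := by
    intro s hs
    rw [abs_le] at hs
    constructor
    · rintro rfl
      norm_num at hs
      linarith
    · rintro rfl
      norm_num at hs
      linarith
  -- the mean square for finite subsets
  have hmain : ∀ Y : Finset (HC K (l * g)), (∀ ψ ∈ Y, ψ ∈ fam K (l * g) R) →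
      ∀ t : HC K (l * g) → ℝ, (∀ ψ, |t ψ| ≤ T) →
      ∑ ψ ∈ Y, ‖Lc D (tw χ ψ (fk_le l g k)) (1 / 2 + t ψ * I)‖ ^ 2 ≤
        B0 * T ^ (A0 + 2) * q ^ (ε / 2) * H := by
    intro Y hY t ht
    have h1 := sup_le Y (fun ψ => Lc D (tw χ ψ (fk_le l g k))) r hr0 (by linarith) T hT t ht
      (C * (4 * T) ^ A0 * q ^ (ε / 2) * H)
      (fun ψ _ s hs => Lc_diff hGD hfne D _ s
        (Lh_diffAt hLA hfne D _ s (hstrip s hs).1 (hstrip s hs).2)) (by
        intro s hs him
        have h2 := hC0 K hK l g k hG D χ hχ hχR Y hY s hs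
        have h3 : ∑ ψ ∈ Y, ‖Lc D (tw χ ψ (fk_le l g k)) s‖ ^ 2 =
            ∑ ψ ∈ Y, ‖Lam D (tw χ ψ (fk_le l g k)) 0 s /
            ((cw K : ℂ) * ((dN K f : ℝ) : ℂ) ^ s *
              Pool.Agent.H23.LB.gS K (tw χ ψ (fk_le l g k)).S (tw χ ψ (fk_le l g k)).ν s)‖ ^ 2 := by
          apply Finset.sum_congr rfl
          intro ψ _
          rw [Pool.Agent.H23.GLA.Lc, Lh_eq D _ s (hstrip s hs).1 (hstrip s hs).2, den]
        rw [h3]
        refine h2.trans ?_
        have h4 : (1 + |s.im|) ^ A ≤ (4 * T) ^ A0 := by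
          calc (1 + |s.im|) ^ A ≤ (1 + |s.im|) ^ A0 :=
                Real.rpow_le_rpow_of_exponent_le (by linarith [abs_nonneg s.im])
                  (le_max_left _ _)
            _ ≤ (4 * T) ^ A0 := by
                apply Real.rpow_le_rpow (by positivity) _ hA00
                linarith
        have h5 : dN K f ^ (8 * κ) ≤ q ^ (ε / 2) := by
          have h6 : dN K f ≤ q := dN_le hfne
          calc dN K f ^ (8 * κ) ≤ q ^ (8 * κ) :=
                Real.rpow_le_rpow (dN_pos hfne).le h6 (by positivity)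
            _ ≤ q ^ (ε / 2) := Real.rpow_le_rpow_of_exponent_le hq1 hκε
        have h7 : 0 ≤ dN K f ^ (8 * κ) := Real.rpow_nonneg (dN_pos hfne).le _
        have h8 : (classNumber K : ℝ) * regulator K * (Nf K (l * g) + Nf K k) = H := rfl
        rw [h8]
        calc C0 * (1 + |s.im|) ^ A * dN K f ^ (8 * κ) * H
            ≤ C * (1 + |s.im|) ^ A * dN K f ^ (8 * κ) * H := by
              gcongr
              exact le_max_left _ _
          _ ≤ _ := by gcongr)
    refine h1.trans (le_of_eq ?_)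
    rw [Real.mul_rpow (by norm_num) (by linarith), Real.rpow_add (by linarith)]
    have h8 : T ^ (2 : ℝ) = T ^ 2 := by
      exact_mod_cast Real.rpow_natCast T 2
    rw [h8, hB0]
    ring
  have hTA : 1 ≤ T ^ (A0 + 2) := Real.one_le_rpow hT (by linarith)
  have hqε : q ^ (ε / 2) ≤ q ^ ε := Real.rpow_le_rpow_of_exponent_le hq1 (by linarith)
  refine ⟨?_, ?_, ?_⟩
  · intro t ht
    rw [finsum_mem_eq_finite_toFinset_sum _ hfin]
    have h1 := hmain hfin.toFinset (fun χ hχ => (Set.Finite.mem_toFinset hfin).mp hχ) t ht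
    refine h1.trans ?_
    gcongr
  · intro t ht
    have h1 := hmain {tr (l * g)} (by
      intro ψ hψ
      rw [Finset.mem_singleton.1 hψ]
      exact tr_mem _ hR) (fun _ => t) (fun _ => ht)
    rw [Finset.sum_singleton, tw_tr χ] at h1
    have h2 := hC1 K hK
    set d : ℝ := |(discr K : ℝ)| with hd
    have hd1 : 1 ≤ d := disc_ge (K := K)
    set P : ℝ := (Ideal.absNorm (l * g) : ℝ) + Ideal.absNorm k with hP
    have hP0 : 0 ≤ P := by positivity
    have h3 : H ≤ C1' * (d ^ (1 / 2 : ℝ) * q ^ (ε / 2)) * P := by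
      rw [hH]
      refine mul_le_mul_of_nonneg_right ?_ hP0
      calc (classNumber K : ℝ) * regulator K ≤ C1 * d ^ (1 / 2 + ε / 2) := h2
        _ ≤ C1' * d ^ (1 / 2 + ε / 2) := by
            gcongr
            exact le_max_left _ _
        _ = C1' * (d ^ (1 / 2 : ℝ) * d ^ (ε / 2)) := by
            rw [Real.rpow_add (by linarith)]
        _ ≤ C1' * (d ^ (1 / 2 : ℝ) * q ^ (ε / 2)) := by gcongr
    have h5 := real1 ‖Pool.Agent.H23.GLA.Lc D χ (1 / 2 + t * I)‖ B0 C1' (T ^ (A0 + 2)) (q ^ (ε / 2)) (q ^ ε) d P H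
      hB00 (by linarith) hTA (Real.rpow_nonneg (by linarith) _) (by
        rw [← Real.rpow_add (by linarith)]
        congr 1
        ring) (Real.one_le_rpow hq1 hε.le) hd1 hP0 h1 h3
    refine h5.trans ?_
    have e6 : 0 ≤ d ^ (1 / 4 : ℝ) := Real.rpow_nonneg (by linarith) _
    have e7 : 0 ≤ P ^ (1 / 2 : ℝ) := Real.rpow_nonneg hP0 _
    have e8 : 0 ≤ T ^ (A0 + 2) := by linarith
    have e9 : 0 ≤ q ^ ε := Real.rpow_nonneg (by linarith) _
    exact mul_le_mul_of_nonneg_right (mul_le_mul_of_nonneg_right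
      (mul_le_mul_of_nonneg_right hBB1 e8) e9) (mul_nonneg e6 e7)
  · intro hkg δ hδ
    set E : Set (HC K (l * g)) := {ψ ∈ fam K (l * g) R | ∃ t : ℝ, |t| ≤ T ∧
      (T * q) ^ δ < ‖Lc D (tw χ ψ (fk_le l g k)) (1 / 2 + t * I)‖} with hE
    have hEfin : E.Finite := hfin.subset (fun χ hχ => hχ.1)
    let t : HC K (l * g) → ℝ := fun ψ => if h : ∃ t : ℝ, |t| ≤ T ∧
      (T * q) ^ δ < ‖Lc D (tw χ ψ (fk_le l g k)) (1 / 2 + t * I)‖ then h.choose else 0
    have ht : ∀ ψ, |t ψ| ≤ T := by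
      intro ψ
      simp only [t]
      split_ifs with h
      · exact h.choose_spec.1
      · simp
        linarith
    have h1 := hmain hEfin.toFinset (fun χ hχ => ((Set.Finite.mem_toFinset hEfin).mp hχ).1) t ht
    have h2 : (E.ncard : ℝ) * (T * q) ^ (2 * δ) ≤
        ∑ ψ ∈ hEfin.toFinset, ‖Lc D (tw χ ψ (fk_le l g k)) (1 / 2 + t ψ * I)‖ ^ 2 := by
      rw [Set.ncard_eq_toFinset_card E hEfin, ← nsmul_eq_mul]
      apply Finset.card_nsmul_le_sum
      intro ψ hψ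
      have h3 := ((Set.Finite.mem_toFinset hEfin).mp hψ).2
      have h4 : (T * q) ^ δ < ‖Lc D (tw χ ψ (fk_le l g k)) (1 / 2 + t ψ * I)‖ := by
        simp only [t]
        rw [dif_pos h3]
        exact h3.choose_spec.2
      have h5 : (T * q) ^ (2 * δ) = ((T * q) ^ δ) ^ 2 := by
        rw [mul_comm 2 δ, Real.rpow_mul (by positivity)]
        exact_mod_cast Real.rpow_natCast _ 2
      rw [h5]
      have h6 : 0 ≤ (T * q) ^ δ := by positivity
      gcongr
    have h3 : (E.ncard : ℝ) * q ^ (2 * δ) ≤ B0 * T ^ (A0 + 2) * q ^ (ε / 2) * H := by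
      refine le_trans ?_ (h2.trans h1)
      gcongr
      nlinarith
    have hqδ : 0 < q ^ (2 * δ) := by positivity
    have h4 : (E.ncard : ℝ) ≤ B0 * T ^ (A0 + 2) * q ^ (ε / 2 - 2 * δ) * H := by
      rw [Real.rpow_sub (by linarith)]
      rw [← mul_le_mul_iff_of_pos_right hqδ]
      refine h3.trans (le_of_eq ?_)
      field_simp
    have hcard : c * (classNumber K * regulator K * Phi K (l * g)) ≤
        (fam K (l * g) R).ncard := by
      obtain ⟨Y, hY1, hY2⟩ := hcK K hK (l * g) hlg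
      refine hY2.trans ?_
      have h1 : (Y : Set (HC K (l * g))).ncard ≤ (fam K (l * g) R).ncard :=
        Set.ncard_le_ncard (fun χ hχ => hY1 χ hχ) hfin
      rw [Set.ncard_coe_finset] at h1
      exact_mod_cast h1
    have hNq : Nf K (l * g) ≤ q := by
      have e1 : Nf K (l * g) ≤ Ideal.absNorm f := by
        unfold Nf
        have : Ideal.absNorm (l * g) ∣ Ideal.absNorm f :=
          Ideal.absNorm_dvd_absNorm_of_le (fk_le l g k)
        exact_mod_cast Nat.le_of_dvd (Nat.pos_of_ne_zero fun h =>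
          hfne (Ideal.absNorm_eq_zero_iff.1 h)) this
      have e2 := disc_ge (K := K)
      have e3 : (0 : ℝ) ≤ Ideal.absNorm f := by positivity
      nlinarith
    have h5 : H ≤ 2 * C2' * q ^ (ε / 2) * (c⁻¹ * (fam K (l * g) R).ncard) := by
      have e1 : (Ideal.absNorm k : ℝ) ≤ Ideal.absNorm (l * g) := by exact_mod_cast hkg
      have e2 := hC2 K hK (l * g) hlg
      have e3 : Nf K (l * g) ^ (ε / 2) ≤ q ^ (ε / 2) :=
        Real.rpow_le_rpow (by unfold Nf; positivity) hNq (by linarith)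
      have e4 : Nf K (l * g) ≤ C2' * q ^ (ε / 2) * Phi K (l * g) := by
        refine e2.trans ?_
        have e5 : 0 ≤ Nf K (l * g) ^ (ε / 2) := by unfold Nf; positivity
        exact mul_le_mul_of_nonneg_right (mul_le_mul (le_max_left _ _) e3 e5 (by linarith))
          (Nat.cast_nonneg _)
      have e5 : H ≤ classNumber K * regulator K *
          (2 * (C2' * q ^ (ε / 2) * Phi K (l * g))) := by
        rw [hH]
        refine mul_le_mul_of_nonneg_left ?_ (by positivity)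
        unfold Nf at e4
        linarith
      refine e5.trans ?_
      have e6 : (classNumber K : ℝ) * regulator K * Phi K (l * g) ≤
          c⁻¹ * (fam K (l * g) R).ncard := by
        rw [le_inv_mul_iff₀ hc]
        exact hcard
      calc (classNumber K : ℝ) * regulator K * (2 * (C2' * q ^ (ε / 2) * Phi K (l * g)))
          = 2 * C2' * q ^ (ε / 2) * (classNumber K * regulator K * Phi K (l * g)) := by ring
        _ ≤ _ := by gcongr
    refine h4.trans ?_
    calc B0 * T ^ (A0 + 2) * q ^ (ε / 2 - 2 * δ) * H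
        ≤ B0 * T ^ (A0 + 2) * q ^ (ε / 2 - 2 * δ) *
          (2 * C2' * q ^ (ε / 2) * (c⁻¹ * (fam K (l * g) R).ncard)) := by gcongr
      _ = B0 * 2 * C2' / c * T ^ (A0 + 2) * (q ^ (ε / 2 - 2 * δ) * q ^ (ε / 2)) *
          (fam K (l * g) R).ncard := by
          rw [div_eq_mul_inv]
          ring
      _ = B0 * 2 * C2' / c * T ^ (A0 + 2) * q ^ (ε - 2 * δ) * (fam K (l * g) R).ncard := by
          rw [← Real.rpow_add (by linarith)]
          congr 3
          ring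
      _ ≤ _ := by gcongr

end Pool.Agent.H29.THC
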