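import Pool.Agent.H29.THC.FIN

/-!
# PB: the number of residue classes prime to `q`
-/

set_option autoImplicit false

open NumberField UniqueFactorizationMonoid

namespace Pool.Agent.H29.THC

open Pool.Agent.H23.LB Pool.Agent.H29.TC

section

variable {K : Type} [Field K] [NumberField K]

theorem fin_quot {q : Ideal (𝓞 K)} (hq : q ≠ ⊥) : Finite (𝓞 K ⧸ q) :=
  Ideal.finiteQuotientOfFreeOfNeBot q hq

/-- at least half of the residue classes modulo a prime power are units -/
theorem half (P : Ideal (𝓞 K)) (hP : Prime P) (a : ℕ) (ha : a ≠ 0) :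
    Nat.card (𝓞 K ⧸ P ^ a) ≤ 2 * Nat.card (𝓞 K ⧸ P ^ a)ˣ := by
  classical
  have hPp : P.IsPrime := Ideal.isPrime_of_prime hP
  have hPa : P ^ a ≠ ⊥ := pow_ne_zero _ hP.ne_zero
  have hfin : Finite (𝓞 K ⧸ P ^ a) := fin_quot hPa
  have hle : P ^ a ≤ P := Ideal.pow_le_self ha
  have hmax : P.IsMaximal := hPp.isMaximal hP.ne_zero
  set m : Ideal (𝓞 K ⧸ P ^ a) := P.map (Ideal.Quotient.mk (P ^ a)) with hm
  have hmem : ∀ x : 𝓞 K, Ideal.Quotient.mk (P ^ a) x ∈ m ↔ x ∈ P := by
    intro x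
    rw [hm, ← Ideal.mem_comap, Ideal.comap_map_of_surjective _ Ideal.Quotient.mk_surjective,
      ← RingHom.ker_eq_comap_bot, Ideal.mk_ker, sup_of_le_left hle]
  have hnu : ∀ x : 𝓞 K ⧸ P ^ a, ¬ IsUnit x → x ∈ m := by
    intro x hx
    obtain ⟨y, rfl⟩ := Ideal.Quotient.mk_surjective x
    rw [hmem]
    by_contra hy
    apply hx
    have h1 : Ideal.span {y} ⊔ P = ⊤ := by
      have h2 : P < Ideal.span {y} ⊔ P := by
        refine lt_of_le_of_ne le_sup_right fun h => hy ?_
        rw [h]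
        exact Ideal.mem_sup_left (Ideal.mem_span_singleton_self y)
      exact hmax.1.2 _ h2
    have h3 : IsCoprime (Ideal.span {y}) (P ^ a) :=
      ((Ideal.isCoprime_iff_sup_eq).2 h1).pow_right
    rw [Ideal.isCoprime_iff_sup_eq, Ideal.eq_top_iff_one, Submodule.mem_sup] at h3
    obtain ⟨u, hu, v, hv, huv⟩ := h3
    obtain ⟨t, rfl⟩ := Ideal.mem_span_singleton'.1 hu
    refine IsUnit.of_mul_eq_one (Ideal.Quotient.mk (P ^ a) t) ?_
    rw [← map_mul, mul_comm, ← map_one (Ideal.Quotient.mk (P ^ a)),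
      Ideal.Quotient.mk_eq_mk_iff_sub_mem, ← huv]
    have : t * y - (t * y + v) = -v := by ring
    rw [this]
    exact neg_mem hv
  have hne : m.toAddSubgroup ≠ ⊤ := by
    intro h
    have h1 : (1 : 𝓞 K ⧸ P ^ a) ∈ m.toAddSubgroup := by
      rw [h]
      exact AddSubgroup.mem_top _
    have h2 : Ideal.Quotient.mk (P ^ a) 1 ∈ m := by
      rw [map_one]
      exact h1
    rw [hmem] at h2
    exact hPp.ne_top ((Ideal.eq_top_iff_one P).2 h2)
  have hidx : 2 * Nat.card m ≤ Nat.card (𝓞 K ⧸ P ^ a) := by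
    have h1 := m.toAddSubgroup.card_mul_index
    have h2 : 2 ≤ m.toAddSubgroup.index := by
      have h3 : m.toAddSubgroup.index ≠ 0 := AddSubgroup.index_ne_zero_of_finite
      have h4 : m.toAddSubgroup.index ≠ 1 := fun h => hne (AddSubgroup.index_eq_one.1 h)
      omega
    have h5 : Nat.card m.toAddSubgroup = Nat.card m := rfl
    rw [h5] at h1
    rw [← h1, mul_comm]
    exact Nat.mul_le_mul_left _ h2
  let φ : 𝓞 K ⧸ P ^ a → (𝓞 K ⧸ P ^ a)ˣ ⊕ m := fun x =>
    if h : IsUnit x then Sum.inl h.unit else Sum.inr ⟨x, hnu x h⟩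
  have hφ : Function.Injective φ := by
    intro x y hxy
    simp only [φ] at hxy
    by_cases hx : IsUnit x
    · by_cases hy : IsUnit y
      · rw [dif_pos hx, dif_pos hy] at hxy
        have := congrArg Units.val (Sum.inl_injective hxy)
        rwa [hx.unit_spec, hy.unit_spec] at this
      · rw [dif_pos hx, dif_neg hy] at hxy
        exact absurd hxy (by simp)
    · by_cases hy : IsUnit y
      · rw [dif_neg hx, dif_pos hy] at hxy
        exact absurd hxy (by simp)
      · rw [dif_neg hx, dif_neg hy] at hxy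
        exact congrArg Subtype.val (Sum.inr_injective hxy)
  have h1 := Nat.card_le_card_of_injective φ hφ
  rw [Nat.card_sum] at h1
  omega

/-- `N(q) ≤ 2 ^ ω(q) Φ(q)` -/
theorem le_two_pow {q : Ideal (𝓞 K)} (hq : q ≠ ⊥) :
    Nat.card (𝓞 K ⧸ q) ≤ 2 ^ (factors q).toFinset.card * Nat.card (𝓞 K ⧸ q)ˣ := by
  classical
  have e := IsDedekindDomain.quotientEquivPiFactors hq
  have h1 : Nat.card (𝓞 K ⧸ q) = ∏ P : (factors q).toFinset,
      Nat.card (𝓞 K ⧸ (P : Ideal (𝓞 K)) ^ (Multiset.count (P : Ideal (𝓞 K)) (factors q))) := by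
    rw [Nat.card_congr e.toEquiv, Nat.card_pi]
  have h2 : Nat.card (𝓞 K ⧸ q)ˣ = ∏ P : (factors q).toFinset,
      Nat.card (𝓞 K ⧸ (P : Ideal (𝓞 K)) ^ (Multiset.count (P : Ideal (𝓞 K)) (factors q)))ˣ := by
    rw [Nat.card_congr (Units.mapEquiv e.toMulEquiv).toEquiv,
      Nat.card_congr MulEquiv.piUnits.toEquiv, Nat.card_pi]
  rw [h1, h2]
  have h3 : 2 ^ (factors q).toFinset.card = ∏ _P : (factors q).toFinset, 2 := by
    rw [Finset.prod_const, Finset.card_univ, Fintype.card_coe]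
  rw [h3, ← Finset.prod_mul_distrib]
  refine Finset.prod_le_prod' fun P _ => ?_
  have hP := Multiset.mem_toFinset.1 P.2
  exact half _ (prime_of_factor _ hP) _ (Multiset.count_ne_zero.2 hP)

/-- `2 ^ ω(q)` is at most the number of divisors -/
theorem two_pow_le (hDF : T_DF) {q : Ideal (𝓞 K)} (hq : q ≠ ⊥) :
    2 ^ (factors q).toFinset.card ≤ (dvs K q).card := by
  classical
  rw [← Finset.card_powerset]
  refine Finset.card_le_card_of_injOn (fun s => ∏ P ∈ s, P) (fun s hs => ?_) ?_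
  · rw [Finset.mem_coe, Finset.mem_powerset] at hs
    rw [Finset.mem_coe, hDF K q hq, ← Ideal.dvd_iff_le]
    have h1 : s.val ≤ factors q := by
      refine (Multiset.le_iff_subset s.nodup).2 fun P hP => ?_
      exact Multiset.mem_toFinset.1 (hs hP)
    have h2 : s.val.prod ∣ (factors q).prod := Multiset.prod_dvd_prod_of_le h1
    have h3 : (factors q).prod = q := associated_iff_eq.mp (factors_prod hq)
    rw [h3] at h2
    rwa [Finset.prod_val] at h2
  · intro s hs t ht hst
    rw [Finset.mem_coe, Finset.mem_powerset] at hs ht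
    have key : ∀ s : Finset (Ideal (𝓞 K)), s ⊆ (factors q).toFinset →
        normalizedFactors (∏ P ∈ s, P) = s.val := by
      intro s hs
      have e : ∏ P ∈ s, P = s.val.prod := (Finset.prod_val s).symm
      rw [e]
      exact normalizedFactors_prod_of_prime fun P hP =>
        prime_of_factor _ (Multiset.mem_toFinset.1 (hs hP))
    simp only at hst
    have h1 := key s hs
    have h2 := key t ht
    rw [hst, h2] at h1
    exact (Finset.val_injective h1).symm

end

theorem pf_PB (hDV : T_DV) (hDF : T_DF) : T_PB := by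
  intro n ε hε
  obtain ⟨C, hC⟩ := hDV n ε hε
  refine ⟨C, fun K _ _ hK q hq => ?_⟩
  have h1 := hC K hK q hq
  have h2 := le_two_pow hq
  have h3 := two_pow_le hDF hq
  have h4 : Nf K q = (Nat.card (𝓞 K ⧸ q) : ℝ) := by
    unfold Nf
    rw [Ideal.absNorm_apply]
    rfl
  have h5 : (Nat.card (𝓞 K ⧸ q) : ℝ) ≤ (dvs K q).card * Phi K q := by
    have h6 : Nat.card (𝓞 K ⧸ q) ≤ (dvs K q).card * Phi K q :=
      h2.trans (Nat.mul_le_mul_right _ h3)
    exact_mod_cast h6
  calc Nf K q ≤ (dvs K q).card * Phi K q := by rw [h4]; exact h5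
    _ ≤ C * Nf K q ^ ε * Phi K q := mul_le_mul_of_nonneg_right h1 (Nat.cast_nonneg _)

end Pool.Agent.H29.THC
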