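import Pool.Agent.H29.THC.FN
import Pool.Agent.H19.RC.TH
import Pool.Agent.H68.RC.GM
import Pool.Agent.H68.RC.LB
import Pool.Agent.H3.HK.LB
import Pool.Agent.H3.HK.GM

/-!
# PR: Poisson summation for pairs `x, x + h`
-/

set_option autoImplicit false

open NumberField NumberField.InfinitePlace NumberField.Units
  NumberField.Units.dirichletUnitTheorem MeasureTheory Set Filter Complex
open scoped nonZeroDivisors ENNReal

namespace Pool.Agent.H29.THC

open Pool.Agent.H25.HK Pool.Agent.H28.RC Pool.Agent.H23.LB Pool.Agent.H29.TC Pool.Agent.H19.RC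
  Pool.Agent.H25

section

variable {K : Type} [Field K] [NumberField K]

omit [NumberField K] in
theorem re_add (v : RP K) (x h : K) : Pool.Agent.H28.RC.re v (x + h) =
    Pool.Agent.H28.RC.re v x + Pool.Agent.H28.RC.re v h := by
  unfold Pool.Agent.H28.RC.re
  exact map_add _ _ _

omit [NumberField K] in
theorem co_add (ε : ℝ) (y : InfinitePlace K → ℝ) (x h : K) :
    co K ε y (x + h) = co K ε y x + co K ε y h := by
  funext i
  rw [Pi.add_apply]
  rcases i with v | ⟨v, i⟩
  · simp only [co, re_add]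
    ring
  · simp only [co, map_add, Complex.add_re, Complex.add_im]
    split_ifs <;> ring

open scoped Classical in
theorem GZ_co (S : Finset (RP K)) (φ : ℝ) (y : InfinitePlace K → ℝ) (x : K) :
    GZ K S φ y x = gz (inJ S) φ (co K 1 y x) := by
  unfold GZ gz
  rw [co_sum 1 (by norm_num), inJ, Finset.prod_map]
  unfold ws
  rw [Complex.ofReal_prod]
  rfl

open scoped Classical in
theorem GZ_pz (S : Finset (RP K)) (φ : ℝ) (y : InfinitePlace K → ℝ) (x h : K) :
    GZ K S φ y (x + h) * (starRingEnd ℂ) (GZ K S φ y x) =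
      pz (inJ S) φ (co K 1 y h) (co K 1 y x) := by
  rw [GZ_co, GZ_co, co_add]
  rfl

theorem qK_log (y : InfinitePlace K → ℝ) (r : ℝ) (hr : 0 < r) (x : K) :
    qK K (fun v => y v + Real.log r) x = r * qK K y x := by
  unfold qK
  rw [Finset.mul_sum]
  refine Finset.sum_congr rfl fun v _ => ?_
  rw [Real.exp_add, Real.exp_log hr]
  ring

end

open scoped Classical in
/-- the sum over a coset -/
theorem coset (K : Type) [Field K] [NumberField K] (S : Finset (RP K)) (φ : ℝ)
    (hc : 0 < Real.cos φ) (L : FI K) (hL : L ≠ 0) (y : InfinitePlace K → ℝ) (h : K) :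
    ∃ (D : ℝ) (F : K → ℂ), 0 ≤ D ∧ Summable (fun l : {l : K // l ∈ du K L} => ‖F l‖) ∧
      D * ∑' l : {l : K // l ∈ du K L}, ‖F l‖ ≤
        (2 ^ ((Module.finrank ℚ K : ℝ) / 2) * Real.cos φ ^ (-(Module.finrank ℚ K : ℝ))) *
        Real.exp (-Real.pi * (Real.cos φ / 4) * qK K y h) *
        th K L (fun v => y v + Real.log (4 * Real.cos φ)) ∧
      ∀ r : K, Summable (fun l : {l : K // l ∈ L} =>
          ‖GZ K S φ y (l + r + h) * (starRingEnd ℂ) (GZ K S φ y (l + r))‖) ∧
        ∑' l : {l : K // l ∈ L}, GZ K S φ y (l + r + h) *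
            (starRingEnd ℂ) (GZ K S φ y (l + r)) =
          (D : ℂ) * ∑' l : {l : K // l ∈ du K L},
            cexp (2 * Real.pi * I * ((Algebra.trace ℚ K (r * l) : ℚ) : ℂ)) * F l := by
  obtain ⟨b, b', hbb, hb, hb', hd⟩ := Pool.Agent.H68.RC.pf_LB Pool.Agent.H3.HK.lb K L hL
  obtain ⟨A, hA, hA1, hA2, hdet⟩ := Pool.Agent.H68.RC.pf_GM Pool.Agent.H3.HK.gm K b b' hbb y
  set a := co K 1 y h with ha
  have hcard : Fintype.card (mixedEmbedding.index K) = Module.finrank ℚ K := by
    rw [← Module.finrank_eq_card_basis b]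
  obtain ⟨d1, d2, d3⟩ := dual_sum A (inJ S) φ a hA hc
  have hco : ∑ i, a i ^ 2 = qK K y h := by
    rw [ha]
    exact co_sum 1 (by norm_num) y h
  have e2 : ∀ k : mixedEmbedding.index K → ℤ,
      (A⁻¹).transpose.mulVec (fun i => (k i : ℝ)) = co K (-1) (-y) (∑ i, k i • b' i) := by
    intro k
    have h1 := hA2 (fun i => (k i : ℚ))
    have h2 : (fun i => (((k i : ℚ) : ℚ) : ℝ)) = fun i => (k i : ℝ) := by
      funext i
      push_cast
      rfl
    rw [h2] at h1
    rw [h1]
    congr 1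
    simp only [Int.cast_smul_eq_zsmul]
  set F : K → ℂ := fun l => Fq (inJ S) φ a (co K (-1) (-y) l) with hF
  have hs1 : Summable (fun l : {l : K // l ∈ du K L} => ‖F l‖) := by
    rw [← (Pool.Agent.H3.HK.latEquiv (du K L) b' hb').summable_iff]
    refine d1.congr fun k => ?_
    rw [Function.comp_apply, Pool.Agent.H3.HK.latEquiv_apply, e2]
  have hs2 : ∑' l : {l : K // l ∈ du K L}, ‖F l‖ = ∑' k : mixedEmbedding.index K → ℤ,
      ‖Fq (inJ S) φ a ((A⁻¹).transpose.mulVec (fun i => (k i : ℝ)))‖ := by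
    rw [← (Pool.Agent.H3.HK.latEquiv (du K L) b' hb').tsum_eq]
    refine tsum_congr fun k => ?_
    rw [Pool.Agent.H3.HK.latEquiv_apply, e2]
  have hth : th K L (fun v => y v + Real.log (4 * Real.cos φ)) =
      ∑' m : mixedEmbedding.index K → ℤ, Real.exp (-Real.pi * (4 * Real.cos φ * ∑ i,
        (A.mulVec (fun i => (m i : ℝ)) i) ^ 2)) := by
    unfold th
    rw [← (Pool.Agent.H3.HK.latEquiv L b hb).tsum_eq]
    refine tsum_congr fun m => ?_
    rw [Pool.Agent.H3.HK.latEquiv_apply, qK_log _ _ (by positivity)]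
    have h1 := hA1 (fun i => (m i : ℚ))
    have h2 : (fun i => (((m i : ℚ) : ℚ) : ℝ)) = fun i => (m i : ℝ) := by
      funext i
      push_cast
      rfl
    rw [h2] at h1
    rw [h1, co_sum 1 (by norm_num)]
    simp only [Int.cast_smul_eq_zsmul]
  refine ⟨|A.det|⁻¹, F, inv_nonneg.2 (abs_nonneg _), hs1, ?_, fun r => ?_⟩
  · rw [hs2, hth]
    rw [hcard, hco] at d2
    have : -(Real.pi * Real.cos φ / 4) * qK K y h = -Real.pi * (Real.cos φ / 4) * qK K y h := by
      ring
    rw [this] at d2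
    exact d2
  · set q : mixedEmbedding.index K → ℚ := fun i => b.repr r i with hq
    have hr : ∑ i, q i • b i = r := b.sum_repr r
    obtain ⟨p1, p2⟩ := poisson A (inJ S) φ a (fun i => ((q i : ℚ) : ℝ)) hA hc
    have e1 : ∀ m : mixedEmbedding.index K → ℤ,
        pz (inJ S) φ a (A.mulVec (fun i => (m i : ℝ) + ((q i : ℚ) : ℝ))) =
          GZ K S φ y (∑ i, m i • b i + r + h) *
            (starRingEnd ℂ) (GZ K S φ y (∑ i, m i • b i + r)) := by
      intro m
      rw [GZ_pz]
      have h1 := hA1 (fun i => (m i : ℚ) + q i)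
      have h2 : (fun i => (((m i : ℚ) + q i : ℚ) : ℝ)) =
          fun i => (m i : ℝ) + ((q i : ℚ) : ℝ) := by
        funext i
        push_cast
        ring
      rw [h2] at h1
      rw [h1]
      congr 2
      simp only [add_smul, Finset.sum_add_distrib, Int.cast_smul_eq_zsmul]
      rw [hr]
    have e3 : ∀ k : mixedEmbedding.index K → ℤ,
        Algebra.trace ℚ K (r * ∑ i, k i • b' i) = ∑ i, (k i : ℚ) * q i := by
      intro k
      rw [← hr, Finset.sum_mul, map_sum]
      refine Finset.sum_congr rfl fun i _ => ?_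
      rw [Finset.mul_sum, map_sum, Finset.sum_eq_single i]
      · rw [← Int.cast_smul_eq_zsmul ℚ, smul_mul_smul_comm, map_smul, hbb, if_pos rfl]
        simp [mul_comm]
      · intro j _ hj
        rw [← Int.cast_smul_eq_zsmul ℚ, smul_mul_smul_comm, map_smul, hbb, if_neg (Ne.symm hj)]
        simp
      · intro h
        exact absurd (Finset.mem_univ i) h
    refine ⟨?_, ?_⟩
    · rw [← (Pool.Agent.H3.HK.latEquiv L b hb).summable_iff]
      refine p1.congr fun m => ?_
      rw [Function.comp_apply, Pool.Agent.H3.HK.latEquiv_apply, e1]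
    · rw [← (Pool.Agent.H3.HK.latEquiv L b hb).tsum_eq,
        ← (Pool.Agent.H3.HK.latEquiv (du K L) b' hb').tsum_eq]
      have h1 : ∑' m : mixedEmbedding.index K → ℤ,
          GZ K S φ y ((Pool.Agent.H3.HK.latEquiv L b hb m : {x : K // x ∈ L}) + r + h) *
            (starRingEnd ℂ) (GZ K S φ y
              ((Pool.Agent.H3.HK.latEquiv L b hb m : {x : K // x ∈ L}) + r)) =
          ∑' m : mixedEmbedding.index K → ℤ,
            pz (inJ S) φ a (A.mulVec (fun i => (m i : ℝ) + ((q i : ℚ) : ℝ))) := by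
        refine tsum_congr fun m => ?_
        rw [Pool.Agent.H3.HK.latEquiv_apply, e1]
      rw [h1, p2]
      congr 1
      refine tsum_congr fun k => ?_
      rw [Pool.Agent.H3.HK.latEquiv_apply, e3]
      simp only [hF]
      rw [e2]
      congr 2
      push_cast
      ring

/-- (PR) Poisson summation for pairs `x, x + h`. -/
theorem pf_PR : T_PR := by
  intro K _ _ S j M X c φ B h hj hM hX hc hφ hB y
  classical
  have hcos : 0 < Real.cos φ := by
    obtain ⟨h1, h2⟩ := abs_lt.1 hφ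
    exact Real.cos_pos_of_mem_Ioo ⟨by linarith, h2⟩
  set L : FI K := (j : FI K) * M with hLd
  have hL : L ≠ 0 := mul_ne_zero (FractionalIdeal.coeIdeal_ne_zero.2 hj) hM
  obtain ⟨D, F, hD, hF, hbd, hco⟩ := coset K S φ hcos L hL y h
  have hcexp : ∀ x : K, ‖cexp (2 * Real.pi * I * ((Algebra.trace ℚ K x : ℚ) : ℂ))‖ = 1 := by
    intro x
    have h7 : (2 * Real.pi * I * ((Algebra.trace ℚ K x : ℚ) : ℂ) : ℂ) =
        ((2 * Real.pi * ((Algebra.trace ℚ K x : ℚ) : ℝ) : ℝ) : ℂ) * I := by
      push_cast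
      ring
    rw [h7, Complex.norm_exp_ofReal_mul_I]
  -- the left side
  have h1 : ∑' x : {x : K // x ∈ M},
        c x * (GZ K S φ y (x + h) * (starRingEnd ℂ) (GZ K S φ y x)) =
      ∑ r ∈ X, c r * ∑' l : {l : K // l ∈ L}, GZ K S φ y (l + r + h) *
        (starRingEnd ℂ) (GZ K S φ y (l + r)) := by
    have h2 : ∑' x : {x : K // x ∈ M},
        c x * (GZ K S φ y (x + h) * (starRingEnd ℂ) (GZ K S φ y x)) =
        ∑' p : {r : K // r ∈ X} × {l : K // l ∈ L},
        c p.1.1 * (GZ K S φ y (p.2.1 + p.1.1 + h) *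
          (starRingEnd ℂ) (GZ K S φ y (p.2.1 + p.1.1))) := by
      rw [← (repEquiv hX).tsum_eq]
      refine tsum_congr fun p => ?_
      rw [repEquiv_apply]
      have h3 := hc p.1.1 (hX.1 _ p.1.2) p.2.1 p.2.2
      rw [add_comm] at h3
      rw [h3]
    have h3 : ∀ r : {r : K // r ∈ X}, Summable fun l : {l : K // l ∈ L} =>
        ‖c r.1 * (GZ K S φ y (l.1 + r.1 + h) *
          (starRingEnd ℂ) (GZ K S φ y (l.1 + r.1)))‖ := by
      intro r
      have h4 := ((hco r.1).1).mul_left ‖c r.1‖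
      refine h4.congr fun l => ?_
      rw [norm_mul (c r.1)]
    have h5 : Summable fun p : {r : K // r ∈ X} × {l : K // l ∈ L} =>
        c p.1.1 * (GZ K S φ y (p.2.1 + p.1.1 + h) *
          (starRingEnd ℂ) (GZ K S φ y (p.2.1 + p.1.1))) := by
      refine Summable.of_norm ?_
      refine (summable_prod_of_nonneg fun p => norm_nonneg _).2 ⟨h3, ?_⟩
      exact Summable.of_finite
    rw [h2, h5.tsum_prod' fun r => (h3 r).of_norm, tsum_fintype,
      ← Finset.sum_coe_sort X (fun r => c r * ∑' l : {l : K // l ∈ L},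
        GZ K S φ y (l + r + h) * (starRingEnd ℂ) (GZ K S φ y (l + r)))]
    refine Finset.sum_congr rfl fun r _ => ?_
    show (∑' l : {l : K // l ∈ L}, c r.1 * (GZ K S φ y (l.1 + r.1 + h) *
      (starRingEnd ℂ) (GZ K S φ y (l.1 + r.1)))) = _
    rw [tsum_mul_left]
  have hsum : ∀ r : K, Summable fun l : {l : K // l ∈ du K L} =>
      c r * (cexp (2 * Real.pi * I * ((Algebra.trace ℚ K (r * l) : ℚ) : ℂ)) * F l) := by
    intro r
    refine Summable.of_norm ?_
    refine (hF.mul_left ‖c r‖).congr fun l => ?_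
    rw [norm_mul, norm_mul, hcexp, one_mul]
  have h8 : ∀ r ∈ X, c r * ∑' l : {l : K // l ∈ L}, GZ K S φ y (l + r + h) *
        (starRingEnd ℂ) (GZ K S φ y (l + r)) =
      (D : ℂ) * ∑' l : {l : K // l ∈ du K L},
        c r * (cexp (2 * Real.pi * I * ((Algebra.trace ℚ K (r * l) : ℚ) : ℂ)) * F l) := by
    intro r _
    rw [(hco r).2, tsum_mul_left]
    ring
  have h9 : ∑' x : {x : K // x ∈ M},
        c x * (GZ K S φ y (x + h) * (starRingEnd ℂ) (GZ K S φ y x)) =
      (D : ℂ) * ∑' l : {l : K // l ∈ du K L}, ft K X c l * F l := by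
    rw [h1, Finset.sum_congr rfl h8, ← Finset.mul_sum]
    congr 1
    rw [← Summable.tsum_finsetSum fun r _ => hsum r]
    refine tsum_congr fun l => ?_
    unfold ft
    rw [Finset.sum_mul]
    refine Finset.sum_congr rfl fun r _ => ?_
    ring
  have hB0 : 0 ≤ B := (norm_nonneg _).trans (hB 0 (by
    have := (du K L).zero_mem
    exact this))
  rw [h9, norm_mul, Complex.norm_real, Real.norm_of_nonneg hD]
  have h10 : ‖∑' l : {l : K // l ∈ du K L}, ft K X c l * F l‖ ≤
      ∑' l : {l : K // l ∈ du K L}, B * ‖F l‖ := by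
    refine tsum_of_norm_bounded (hF.mul_left B).hasSum fun l => ?_
    rw [norm_mul]
    exact mul_le_mul_of_nonneg_right (hB l l.2) (norm_nonneg _)
  rw [tsum_mul_left] at h10
  calc D * ‖∑' l : {l : K // l ∈ du K L}, ft K X c l * F l‖
      ≤ D * (B * ∑' l : {l : K // l ∈ du K L}, ‖F l‖) := mul_le_mul_of_nonneg_left h10 hD
    _ = B * (D * ∑' l : {l : K // l ∈ du K L}, ‖F l‖) := by ring
    _ ≤ B * ((2 ^ ((Module.finrank ℚ K : ℝ) / 2) *
          Real.cos φ ^ (-(Module.finrank ℚ K : ℝ))) *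
        Real.exp (-Real.pi * (Real.cos φ / 4) * qK K y h) *
        th K L (fun v => y v + Real.log (4 * Real.cos φ))) :=
        mul_le_mul_of_nonneg_left hbd hB0
    _ = _ := by ring

end Pool.Agent.H29.THC
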