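import Pool.Agent.H29.THC.BaseA
import Pool.Agent.H29.THC.CQ
import Pool.Agent.H29.THC.FG
import Pool.Agent.H29.THC.PR
import Pool.Agent.H29.THC.PB
import Pool.Agent.H29.THC.DFV
import Pool.Agent.H29.THC.FIN
import Pool.Agent.H42.THC.FP2
import Pool.Agent.H27.THC.GB
import Pool.Agent.H56.THC.GX
import Pool.Agent.H63.THC.HR
import Pool.Agent.H61.THC.MT
import Pool.Agent.H96.THC.MU
import Pool.Agent.H26.THC.SP
import Pool.Agent.H26.THC.TR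
import Pool.Agent.H59.THC.TW
import Pool.Agent.H48.TC.QB
import Pool.Agent.H34.TC.EX
import Pool.Agent.H69.TC.CU
import Pool.Agent.H69.TC.ME
import Pool.Agent.H69.TC.BB
import Pool.Agent.H81.THC.CS
import Pool.Agent.H81.THC.MC
import Pool.Agent.H47.GLA.UZ

/-!
# Thin cosets of Hecke characters: assembly
-/

set_option autoImplicit false

open NumberField NumberField.InfinitePlace MeasureTheory Set Filter Complex

namespace Pool.Agent.H29.THC.All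

open Pool.Agent.H23.LB Pool.Agent.H29.TC Pool.Agent.H29.THC Pool.Agent.H29.THC.Base

theorem a_UZ : T_UZ := Pool.Agent.H47.GLA.pf_UZ c_AZ c_GZ c_CF c_PU

theorem a_CQ : T_CQ := pf_CQ

theorem a_FG : T_FG := pf_FG

theorem a_FP2 : T_FP2 := Pool.Agent.H42.THC.pf_FP2 a_FG

theorem a_TR : Pool.Agent.H29.TC.T_TR := Pool.Agent.H26.THC.pf_TR a_FG a_FP2

theorem a_GX : T_GX := Pool.Agent.H56.THC.pf_GX c_ID

theorem a_SP : T_SP := Pool.Agent.H26.THC.pf_SP c_CF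

theorem a_TW : T_TW := Pool.Agent.H59.THC.pf_TW c_CF

theorem a_GB : T_GB := Pool.Agent.H27.THC.pf_GB c_TH

theorem a_EX : T_EX := Pool.Agent.H34.TC.pf_EX

theorem a_CS : Pool.Agent.H29.TC.T_CS := Pool.Agent.H81.THC.pf_CS a_CQ pf_DF

theorem a_PR : T_PR := pf_PR

theorem a_QB : T_QB :=
  Pool.Agent.H48.TC.pf_QB a_PR a_GB a_CS a_EX a_CQ pf_DF c_TH c_YC c_DU c_FP c_RX

theorem a_MT : T_MT := Pool.Agent.H61.THC.pf_MT

theorem a_MU : T_MU := Pool.Agent.H96.THC.pf_MU a_QB a_MT pf_DV pf_DF c_NS c_FP c_WC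

theorem a_CU : T_CU := Pool.Agent.H69.TC.pf_CU c_WF c_WC c_AZ c_DU

theorem a_BB : T_BB :=
  Pool.Agent.H69.TC.pf_BB a_SP a_TR a_MU a_CU a_GX c_CF c_WC c_DU c_RX

theorem a_ME : T_ME' := Pool.Agent.H69.TC.pf_ME c_A1 c_RR c_FP pf_DF

theorem a_HR : T_HR := Pool.Agent.H63.THC.pf_HR c_A1 c_MV c_FP c_SY c_RR

theorem a_PB : T_PB := pf_PB pf_DV pf_DF

theorem a_FN : T_FN := Pool.Agent.H77.GLA.pf_FN c_BE a_UZ c_AZ c_SE c_GD c_SY

theorem a_PH : T_PH := Pool.Agent.H33.GLA.pf_PH a_UZ c_AZ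

theorem a_MC : T_MC :=
  Pool.Agent.H81.THC.pf_MC a_BB a_ME a_TW pf_DV c_CF c_PU c_FP c_AZ a_PH c_BE c_GL c_RX

theorem final (m : ℕ) (hm : 1 ≤ m) (R : ℝ) (hR : 0 < R) :
    ∃ A : ℝ, ∀ ε : ℝ, 0 < ε → ∃ B : ℝ, ∀ (K : Type) [Field K] [NumberField K],
      Module.finrank ℚ K = m → ∀ l g k : Ideal (𝓞 K), GK l g k →
      ∃ L : HC K (fk l g k) → ℂ → ℂ,
        (∀ χ : HC K (fk l g k), (∀ s : ℂ, 1 < s.re → L χ s = χ.series s) ∧
          (∀ s : ℂ, s ≠ 0 → s ≠ 1 → DifferentiableAt ℂ (L χ) s) ∧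
          ((∃ I : Ideal (𝓞 K), χ.ψ I ≠ 0 ∧ χ.ψ I ≠ 1) → Differentiable ℂ (L χ))) ∧
        ∀ χ : HC K (fk l g k), χ ∈ fam K (fk l g k) R → Prk k χ → ∀ T : ℝ, 1 ≤ T →
          (∀ t : HC K (l * g) → ℝ, (∀ ψ, |t ψ| ≤ T) →
            ∑ᶠ ψ ∈ fam K (l * g) R, ‖L (tw χ ψ (fk_le l g k)) (1 / 2 + t ψ * I)‖ ^ 2 ≤
              B * T ^ A * (|(discr K : ℝ)| * Ideal.absNorm (fk l g k)) ^ ε *
                (classNumber K * Units.regulator K *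
                  (Ideal.absNorm (l * g) + Ideal.absNorm k))) ∧
          (∀ t : ℝ, |t| ≤ T → ‖L χ (1 / 2 + t * I)‖ ≤
              B * T ^ A * (|(discr K : ℝ)| * Ideal.absNorm (fk l g k)) ^ ε *
                (|(discr K : ℝ)| ^ (1 / 4 : ℝ) *
                  (Ideal.absNorm (l * g) + Ideal.absNorm k) ^ (1 / 2 : ℝ))) ∧
          (Ideal.absNorm k ≤ Ideal.absNorm (l * g) → ∀ δ : ℝ, 0 < δ →
            ({ψ ∈ fam K (l * g) R | ∃ t : ℝ, |t| ≤ T ∧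
              (T * (|(discr K : ℝ)| * Ideal.absNorm (fk l g k))) ^ δ <
                ‖L (tw χ ψ (fk_le l g k)) (1 / 2 + t * I)‖}.ncard : ℝ) ≤
              B * T ^ A * (|(discr K : ℝ)| * Ideal.absNorm (fk l g k)) ^ (ε - 2 * δ) *
                (fam K (l * g) R).ncard) :=
  main_tc c_GD a_UZ c_LA c_SY a_FN c_CH a_MC a_HR a_PB m hm R hR

end Pool.Agent.H29.THC.All
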