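import Pool.Agent.H29.TC.Defs

/-!
# Abbreviations for the statement about thin cosets
-/

set_option autoImplicit false

open NumberField NumberField.InfinitePlace NumberField.Units MeasureTheory Set Filter Complex

namespace Pool.Agent.H29.THC

open Pool.Agent.H23.LB Pool.Agent.H29.TC

/-- `L χ` is the analytic continuation of the Dirichlet series of `χ`, analytic except possibly at
`0` and `1`, and entire if `χ` takes a value different from `0` and `1`. -/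
def IsCont (K : Type) [Field K] [NumberField K] (f : Ideal (𝓞 K)) (L : HC K f → ℂ → ℂ) : Prop :=
  ∀ χ : HC K f, (∀ s : ℂ, 1 < s.re → L χ s = χ.series s) ∧
    (∀ s : ℂ, s ≠ 0 → s ≠ 1 → DifferentiableAt ℂ (L χ) s) ∧
    ((∃ I : Ideal (𝓞 K), χ.ψ I ≠ 0 ∧ χ.ψ I ≠ 1) → Differentiable ℂ (L χ))

/-- `|d_K| N(f)` -/
noncomputable def QQ (K : Type) [Field K] [NumberField K] (f : Ideal (𝓞 K)) : ℝ :=
  |(discr K : ℝ)| * Ideal.absNorm f

/-- The mean square over the coset: `∑_ψ |L(1/2 + i t_ψ, χ ψ)|² ≤ X` for all points `|t_ψ| ≤ T`,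
where `ψ` runs through the Hecke characters modulo `l g` with frequencies at most `R`. -/
def MeanSq (K : Type) [Field K] [NumberField K] (l g k : Ideal (𝓞 K))
    (L : HC K (fk l g k) → ℂ → ℂ) (χ : HC K (fk l g k)) (R T X : ℝ) : Prop :=
  ∀ t : HC K (l * g) → ℝ, (∀ ψ, |t ψ| ≤ T) →
    ∑ᶠ ψ ∈ fam K (l * g) R, ‖L (tw χ ψ (fk_le l g k)) (1 / 2 + t ψ * I)‖ ^ 2 ≤ X

/-- the characters `ψ` of the family for which `|L(1/2 + it, χ ψ)| > Y` for some `|t| ≤ T` -/
def Exc (K : Type) [Field K] [NumberField K] (l g k : Ideal (𝓞 K))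
    (L : HC K (fk l g k) → ℂ → ℂ) (χ : HC K (fk l g k)) (R T Y : ℝ) : Set (HC K (l * g)) :=
  {ψ ∈ fam K (l * g) R | ∃ t : ℝ, |t| ≤ T ∧
    Y < ‖L (tw χ ψ (fk_le l g k)) (1 / 2 + t * I)‖}

end Pool.Agent.H29.THC
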