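import Pool.Agent.H29.TC.Targets

/-!
# The Fourier transform of a product of two rotated Gaussians in one variable
-/

set_option autoImplicit false

open MeasureTheory Set Filter Complex

namespace Pool.Agent.H29.THC

/-- the Gaussian -/
noncomputable def E (b : ℝ) (β d : ℂ) (v : ℝ) : ℂ := cexp (-(b : ℂ) * (v : ℂ) ^ 2 + β * v + d)

theorem E_int {b : ℝ} (hb : 0 < b) (β d : ℂ) : Integrable (E b β d) := by
  have : (-(b : ℂ)).re < 0 := by simpa using hb
  exact integrable_cexp_quadratic' this β d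

theorem E_cont (b : ℝ) (β d : ℂ) : Continuous (E b β d) := by
  unfold E
  fun_prop

theorem E_val {b : ℝ} (hb : 0 < b) (β d : ℂ) :
    ∫ v, E b β d v = (Real.pi / b : ℂ) ^ (1 / 2 : ℂ) * cexp (d + β ^ 2 / (4 * b)) := by
  have h : (-(b : ℂ)).re < 0 := by simpa using hb
  have h1 := integral_cexp_quadratic h β d
  have h2 : d - β ^ 2 / (4 * -(b : ℂ)) = d + β ^ 2 / (4 * b) := by
    rw [mul_neg, div_neg, sub_neg_eq_add]
  rw [neg_neg, h2] at h1
  exact h1

theorem E_norm (b : ℝ) (β d : ℂ) (v : ℝ) :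
    ‖E b β d v‖ = Real.exp (-b * v ^ 2 + β.re * v + d.re) := by
  unfold E
  rw [Complex.norm_exp]
  congr 1
  simp [← Complex.ofReal_pow]

theorem E_dom (b : ℝ) (β d : ℂ) (v : ℝ) :
    |v| * ‖E b β d v‖ ≤ ‖E b (β + 1) d v‖ + ‖E b (β - 1) d v‖ ∧
    v ^ 2 * ‖E b β d v‖ ≤ 2 * (‖E b (β + 1) d v‖ + ‖E b (β - 1) d v‖) := by
  have h1 : ‖E b (β + 1) d v‖ = ‖E b β d v‖ * Real.exp v := by
    rw [E_norm, E_norm, ← Real.exp_add]
    congr 1
    simp
    ring
  have h2 : ‖E b (β - 1) d v‖ = ‖E b β d v‖ * Real.exp (-v) := by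
    rw [E_norm, E_norm, ← Real.exp_add]
    congr 1
    simp
    ring
  have h3 : Real.exp |v| ≤ Real.exp v + Real.exp (-v) := by
    rcases le_total 0 v with h | h
    · rw [abs_of_nonneg h]
      linarith [Real.exp_pos (-v)]
    · rw [abs_of_nonpos h]
      linarith [Real.exp_pos v]
  have h4 : |v| ≤ Real.exp |v| := by linarith [Real.add_one_le_exp |v|]
  have h5 : v ^ 2 ≤ 2 * Real.exp |v| := by
    have := Real.quadratic_le_exp_of_nonneg (abs_nonneg v)
    rw [sq_abs] at this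
    linarith [abs_nonneg v]
  have h6 := norm_nonneg (E b β d v)
  rw [h1, h2, ← mul_add]
  constructor
  · rw [mul_comm]
    exact mul_le_mul_of_nonneg_left (h4.trans h3) h6
  · calc v ^ 2 * ‖E b β d v‖ ≤ (2 * (Real.exp v + Real.exp (-v))) * ‖E b β d v‖ := by
          refine mul_le_mul_of_nonneg_right ?_ h6
          linarith
      _ = _ := by ring

theorem vE_int {b : ℝ} (hb : 0 < b) (β d : ℂ) :
    Integrable (fun v : ℝ => (v : ℂ) * E b β d v) := by
  refine ((E_int hb (β + 1) d).norm.add (E_int hb (β - 1) d).norm).mono'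
    (Continuous.aestronglyMeasurable ?_) (Filter.Eventually.of_forall fun v => ?_)
  · have := E_cont b β d
    fun_prop
  · rw [norm_mul, Complex.norm_real, Real.norm_eq_abs]
    exact (E_dom b β d v).1

theorem v2E_int {b : ℝ} (hb : 0 < b) (β d : ℂ) :
    Integrable (fun v : ℝ => (v : ℂ) ^ 2 * E b β d v) := by
  refine (((E_int hb (β + 1) d).norm.add (E_int hb (β - 1) d).norm).const_mul 2).mono'
    (Continuous.aestronglyMeasurable ?_) (Filter.Eventually.of_forall fun v => ?_)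
  · have := E_cont b β d
    fun_prop
  · rw [norm_mul, norm_pow, Complex.norm_real, Real.norm_eq_abs, sq_abs]
    exact (E_dom b β d v).2

theorem E_deriv (b : ℝ) (β d : ℂ) (v : ℝ) :
    HasDerivAt (E b β d) ((-(2 * b) * (v : ℂ) + β) * E b β d v) v := by
  have h1 : HasDerivAt (fun z : ℂ => -(b : ℂ) * z ^ 2 + β * z + d)
      (-(b : ℂ) * (2 * (v : ℂ)) + β) (v : ℂ) := by
    have h2 : HasDerivAt (fun z : ℂ => z ^ 2) (2 * (v : ℂ)) (v : ℂ) := by
      simpa using hasDerivAt_pow 2 (v : ℂ)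
    have h3 := ((h2.const_mul (-(b : ℂ))).add ((hasDerivAt_id (v : ℂ)).const_mul β)).add_const d
    simpa using h3
  have h4 := h1.cexp.comp_ofReal
  unfold E
  convert h4 using 1
  ring

theorem vE_val {b : ℝ} (hb : 0 < b) (β d : ℂ) :
    ∫ v : ℝ, (v : ℂ) * E b β d v = β / (2 * b) * ∫ v, E b β d v := by
  have hbc : (b : ℂ) ≠ 0 := Complex.ofReal_ne_zero.2 hb.ne'
  have h1 : ∫ v : ℝ, (-(2 * b) * (v : ℂ) + β) * E b β d v = 0 := by
    refine integral_eq_zero_of_hasDerivAt_of_integrable (f := E b β d) (E_deriv b β d) ?_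
      (E_int hb β d)
    have := ((vE_int hb β d).const_mul (-(2 * b) : ℂ)).add ((E_int hb β d).const_mul β)
    refine this.congr (Filter.Eventually.of_forall fun v => ?_)
    simp only [Pi.add_apply]
    ring
  have h2 : ∫ v : ℝ, (-(2 * b) * (v : ℂ) + β) * E b β d v =
      (-(2 * b) : ℂ) * (∫ v : ℝ, (v : ℂ) * E b β d v) + β * ∫ v, E b β d v := by
    rw [← integral_const_mul, ← integral_const_mul, ← integral_add
      ((vE_int hb β d).const_mul _) ((E_int hb β d).const_mul _)]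
    refine integral_congr_ae (Filter.Eventually.of_forall fun v => ?_)
    simp only
    ring
  rw [h1] at h2
  field_simp
  linear_combination h2

theorem v2E_val {b : ℝ} (hb : 0 < b) (β d : ℂ) :
    ∫ v : ℝ, (v : ℂ) ^ 2 * E b β d v =
      (1 / (2 * b) + (β / (2 * b)) ^ 2) * ∫ v, E b β d v := by
  have hbc : (b : ℂ) ≠ 0 := Complex.ofReal_ne_zero.2 hb.ne'
  have hd : ∀ v : ℝ, HasDerivAt (fun v : ℝ => (v : ℂ) * E b β d v)
      (E b β d v + (v : ℂ) * ((-(2 * b) * (v : ℂ) + β) * E b β d v)) v := by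
    intro v
    have h1 : HasDerivAt (fun v : ℝ => (v : ℂ)) 1 v := by
      simpa using (hasDerivAt_id (v : ℂ)).comp_ofReal
    have h2 : HasDerivAt (fun v : ℝ => (v : ℂ) * E b β d v)
        (1 * E b β d v + (v : ℂ) * ((-(2 * b) * (v : ℂ) + β) * E b β d v)) v :=
      h1.mul (E_deriv b β d v)
    rw [one_mul] at h2
    exact h2
  have hi : Integrable (fun v : ℝ => E b β d v + (v : ℂ) *
      ((-(2 * b) * (v : ℂ) + β) * E b β d v)) := by
    have := (E_int hb β d).add (((v2E_int hb β d).const_mul (-(2 * b) : ℂ)).add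
      ((vE_int hb β d).const_mul β))
    refine this.congr (Filter.Eventually.of_forall fun v => ?_)
    simp only [Pi.add_apply]
    ring
  have h1 := integral_eq_zero_of_hasDerivAt_of_integrable hd hi (vE_int hb β d)
  have h2 : ∫ v : ℝ, (E b β d v + (v : ℂ) * ((-(2 * b) * (v : ℂ) + β) * E b β d v)) =
      (∫ v, E b β d v) + ((-(2 * b) : ℂ) * (∫ v : ℝ, (v : ℂ) ^ 2 * E b β d v) +
        β * ∫ v : ℝ, (v : ℂ) * E b β d v) := by
    have h3 : Integrable (fun v : ℝ => (-(2 * b) : ℂ) * ((v : ℂ) ^ 2 * E b β d v) +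
        β * ((v : ℂ) * E b β d v)) :=
      ((v2E_int hb β d).const_mul _).add ((vE_int hb β d).const_mul _)
    rw [← integral_const_mul, ← integral_const_mul, ← integral_add
      ((v2E_int hb β d).const_mul _) ((vE_int hb β d).const_mul _), ← integral_add
      (E_int hb β d) h3]
    refine integral_congr_ae (Filter.Eventually.of_forall fun v => ?_)
    simp only
    ring
  rw [h1, vE_val hb] at h2
  field_simp
  field_simp at h2
  linear_combination h2

/-- the one-dimensional factor -/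
noncomputable def fz (p : Prop) [Decidable p] (φ : ℝ) (v : ℝ) : ℂ :=
  (if p then (v : ℂ) else 1) * cexp (-Real.pi * (cexp (φ * I) * ((v ^ 2 : ℝ) : ℂ)))

theorem conj_cexp (φ : ℝ) : (starRingEnd ℂ) (cexp (φ * I)) = cexp (-(φ * I)) := by
  rw [← Complex.exp_conj]
  simp

theorem zeta_add (φ : ℝ) : cexp (φ * I) + cexp (-(φ * I)) = 2 * (Real.cos φ : ℂ) := by
  rw [Complex.ofReal_cos, Complex.cos]
  ring_nf

theorem prod_eq (p : Prop) [Decidable p] (φ a w v : ℝ) :
    cexp (-(2 * Real.pi * (w * v) : ℝ) * I) * (fz p φ (v + a) * (starRingEnd ℂ) (fz p φ v)) =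
      (if p then (v : ℂ) ^ 2 + a * v else 1) * E (2 * Real.pi * Real.cos φ)
        (-(2 * Real.pi) * (cexp (φ * I) * a + I * w)) (-Real.pi * cexp (φ * I) * a ^ 2) v := by
  have h1 : (starRingEnd ℂ) (fz p φ v) = (if p then (v : ℂ) else 1) *
      cexp (-Real.pi * (cexp (-(φ * I)) * ((v ^ 2 : ℝ) : ℂ))) := by
    unfold fz
    rw [map_mul, ← Complex.exp_conj]
    congr 1
    · split_ifs <;> simp
    · congr 1
      rw [map_mul, map_mul, conj_cexp, map_neg, Complex.conj_ofReal, Complex.conj_ofReal]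
  rw [h1]
  unfold fz E
  have h2 : cexp (-(2 * Real.pi * (w * v) : ℝ) * I) *
      (cexp (-Real.pi * (cexp (φ * I) * (((v + a) ^ 2 : ℝ) : ℂ))) *
        cexp (-Real.pi * (cexp (-(φ * I)) * ((v ^ 2 : ℝ) : ℂ)))) =
      cexp (-((2 * Real.pi * Real.cos φ : ℝ) : ℂ) * (v : ℂ) ^ 2 +
        -(2 * Real.pi) * (cexp (φ * I) * a + I * w) * v + -Real.pi * cexp (φ * I) * a ^ 2) := by
    rw [← Complex.exp_add, ← Complex.exp_add]
    congr 1
    push_cast
    have := zeta_add φ
    push_cast at this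
    linear_combination (-(Real.pi : ℂ) * (v : ℂ) ^ 2) * this
  rw [← h2]
  split_ifs
  · push_cast
    ring
  · ring

theorem re_exponent (φ a w : ℝ) (hc : 0 < Real.cos φ) :
    ((-Real.pi * cexp (φ * I) * a ^ 2) + (-(2 * Real.pi) * (cexp (φ * I) * a + I * w)) ^ 2 /
      (4 * ((2 * Real.pi * Real.cos φ : ℝ) : ℂ)) : ℂ).re =
      -(Real.pi / (2 * Real.cos φ)) * ((w + Real.sin φ * a) ^ 2 + Real.cos φ ^ 2 * a ^ 2) := by
  have hz : cexp (φ * I) = ⟨Real.cos φ, Real.sin φ⟩ := by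
    rw [Complex.exp_mul_I]
    apply Complex.ext <;> simp [Complex.cos_ofReal_re, Complex.sin_ofReal_re,
      Complex.cos_ofReal_im, Complex.sin_ofReal_im]
  have h1 : (-(2 * Real.pi) * (cexp (φ * I) * a + I * w)) ^ 2 /
      (4 * ((2 * Real.pi * Real.cos φ : ℝ) : ℂ)) =
      ((Real.pi / (2 * Real.cos φ) : ℝ) : ℂ) * (cexp (φ * I) * a + I * w) ^ 2 := by
    have h2 : (Real.cos φ : ℂ) ≠ 0 := Complex.ofReal_ne_zero.2 hc.ne'
    have h3 : (Real.pi : ℂ) ≠ 0 := Complex.ofReal_ne_zero.2 Real.pi_ne_zero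
    rw [Complex.ofReal_div, Complex.ofReal_mul, Complex.ofReal_mul, Complex.ofReal_mul]
    push_cast
    push_cast at h2
    field_simp
    ring
  have h4 : (-Real.pi * cexp (φ * I) * a ^ 2 : ℂ) =
      ((-Real.pi * a ^ 2 : ℝ) : ℂ) * cexp (φ * I) := by
    push_cast
    ring
  rw [h1, h4, Complex.add_re, Complex.re_ofReal_mul, Complex.re_ofReal_mul, hz]
  have h5 : ((⟨Real.cos φ, Real.sin φ⟩ * (a : ℂ) + I * (w : ℂ)) ^ 2 : ℂ).re =
      (Real.cos φ * a) ^ 2 - (Real.sin φ * a + w) ^ 2 := by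
    simp [sq]
  rw [h5]
  field_simp
  ring

theorem norm_sqrt_val (φ : ℝ) (hc : 0 < Real.cos φ) :
    ‖(Real.pi / ((2 * Real.pi * Real.cos φ : ℝ) : ℂ) : ℂ) ^ (1 / 2 : ℂ)‖ =
      (2 * Real.cos φ) ^ (-(1 / 2 : ℝ)) := by
  have h1 : (Real.pi / ((2 * Real.pi * Real.cos φ : ℝ) : ℂ) : ℂ) =
      (((2 * Real.cos φ)⁻¹ : ℝ) : ℂ) := by
    have h2 : (Real.cos φ : ℂ) ≠ 0 := Complex.ofReal_ne_zero.2 hc.ne'
    have h3 : (Real.pi : ℂ) ≠ 0 := Complex.ofReal_ne_zero.2 Real.pi_ne_zero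
    push_cast
    push_cast at h2
    field_simp
  rw [h1, Complex.norm_cpow_eq_rpow_re_of_pos (by positivity)]
  have h4 : (1 / 2 : ℂ).re = 1 / 2 := by norm_num
  rw [h4, Real.inv_rpow (by positivity), Real.rpow_neg (by positivity)]

/-- The one-dimensional estimate. -/
theorem F1 (p : Prop) [Decidable p] (φ a w : ℝ) (hc : 0 < Real.cos φ) :
    Integrable (fun v : ℝ => cexp (-(2 * Real.pi * (w * v) : ℝ) * I) *
      (fz p φ (v + a) * (starRingEnd ℂ) (fz p φ v))) ∧
    ‖∫ v : ℝ, cexp (-(2 * Real.pi * (w * v) : ℝ) * I) *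
      (fz p φ (v + a) * (starRingEnd ℂ) (fz p φ v))‖ ≤
      (2 * Real.cos φ) ^ (-(1 / 2 : ℝ)) * (Real.cos φ)⁻¹ *
        Real.exp (-(Real.pi / (4 * Real.cos φ)) *
          ((w + Real.sin φ * a) ^ 2 + Real.cos φ ^ 2 * a ^ 2)) := by
  have hc1 : Real.cos φ ≤ 1 := Real.cos_le_one φ
  have hpi := Real.pi_pos
  set b : ℝ := 2 * Real.pi * Real.cos φ with hbd
  have hb : 0 < b := by rw [hbd]; positivity
  set β : ℂ := -(2 * Real.pi) * (cexp (φ * I) * a + I * w) with hβ
  set d : ℂ := -Real.pi * cexp (φ * I) * a ^ 2 with hd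
  set Q : ℝ := (w + Real.sin φ * a) ^ 2 + Real.cos φ ^ 2 * a ^ 2 with hQ
  have hQ0 : 0 ≤ Q := by rw [hQ]; positivity
  have hfun : (fun v : ℝ => cexp (-(2 * Real.pi * (w * v) : ℝ) * I) *
      (fz p φ (v + a) * (starRingEnd ℂ) (fz p φ v))) =
      fun v : ℝ => (if p then (v : ℂ) ^ 2 + a * v else 1) * E b β d v := by
    funext v
    exact prod_eq p φ a w v
  have hval : ‖∫ v, E b β d v‖ = (2 * Real.cos φ) ^ (-(1 / 2 : ℝ)) *
      Real.exp (-(Real.pi / (2 * Real.cos φ)) * Q) := by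
    rw [E_val hb, norm_mul, Complex.norm_exp, re_exponent φ a w hc, norm_sqrt_val φ hc]
  have hpos : 0 < (2 * Real.cos φ) ^ (-(1 / 2 : ℝ)) := by positivity
  have hcinv : 1 ≤ (Real.cos φ)⁻¹ := (one_le_inv₀ hc).2 hc1
  rw [hfun]
  by_cases hp : p
  · simp only [hp, if_true]
    have hi : Integrable (fun v : ℝ => ((v : ℂ) ^ 2 + a * v) * E b β d v) := by
      refine ((v2E_int hb β d).add ((vE_int hb β d).const_mul (a : ℂ))).congr
        (Filter.Eventually.of_forall fun v => ?_)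
      simp only [Pi.add_apply]
      ring
    refine ⟨hi, ?_⟩
    have h1 : ∫ v : ℝ, ((v : ℂ) ^ 2 + a * v) * E b β d v =
        (1 / (2 * b) + (β / (2 * b)) ^ 2 + a * (β / (2 * b))) * ∫ v, E b β d v := by
      have h2 : ∫ v : ℝ, ((v : ℂ) ^ 2 + a * v) * E b β d v =
          (∫ v : ℝ, (v : ℂ) ^ 2 * E b β d v) + a * ∫ v : ℝ, (v : ℂ) * E b β d v := by
        rw [← integral_const_mul, ← integral_add (v2E_int hb β d)
          ((vE_int hb β d).const_mul _)]
        refine integral_congr_ae (Filter.Eventually.of_forall fun v => ?_)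
        simp only
        ring
      rw [h2, v2E_val hb, vE_val hb]
      ring
    have hμ : (1 / (2 * (b : ℂ)) + (β / (2 * b)) ^ 2 + a * (β / (2 * b)) : ℂ) =
        (((4 * Real.pi * Real.cos φ)⁻¹ - Q / (4 * Real.cos φ ^ 2) : ℝ) : ℂ) := by
      have hcc : (Real.cos φ : ℂ) ≠ 0 := Complex.ofReal_ne_zero.2 hc.ne'
      have hpc : (Real.pi : ℂ) ≠ 0 := Complex.ofReal_ne_zero.2 hpi.ne'
      have hz : cexp (φ * I) = (Real.cos φ : ℂ) + Real.sin φ * I := by
        rw [Complex.exp_mul_I, Complex.ofReal_cos, Complex.ofReal_sin]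
      have h6 : (Real.sin φ : ℂ) ^ 2 + (Real.cos φ : ℂ) ^ 2 = 1 := by
        have := Real.sin_sq_add_cos_sq φ
        exact_mod_cast this
      rw [hβ, hbd, hz, hQ]
      obtain ⟨c, hcd⟩ : ∃ c : ℂ, c = (Real.cos φ : ℂ) := ⟨_, rfl⟩
      obtain ⟨s, hs⟩ : ∃ s : ℂ, s = (Real.sin φ : ℂ) := ⟨_, rfl⟩
      simp only [Complex.ofReal_sub, Complex.ofReal_div, Complex.ofReal_mul, Complex.ofReal_add,
        Complex.ofReal_pow, Complex.ofReal_inv, Complex.ofReal_ofNat]
      rw [← hcd, ← hs]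
      rw [← hcd] at hcc h6
      rw [← hs] at h6
      field_simp
      ring_nf
      simp only [Complex.I_sq]
      ring_nf
    rw [h1, hμ, norm_mul, hval, Complex.norm_real, Real.norm_eq_abs]
    have hX : |(4 * Real.pi * Real.cos φ)⁻¹ - Q / (4 * Real.cos φ ^ 2)| ≤
        (Real.cos φ)⁻¹ * Real.exp (Real.pi / (4 * Real.cos φ) * Q) := by
      have h7 := Real.add_one_le_exp (Real.pi / (4 * Real.cos φ) * Q)
      have h8 : (4 * Real.pi * Real.cos φ)⁻¹ + Q / (4 * Real.cos φ ^ 2) ≤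
          (Real.cos φ)⁻¹ * (Real.pi / (4 * Real.cos φ) * Q + 1) := by
        have h9 : (4 * Real.pi * Real.cos φ)⁻¹ ≤ (Real.cos φ)⁻¹ := by
          refine inv_anti₀ hc ?_
          nlinarith [Real.pi_gt_three]
        have h10 : Q / (4 * Real.cos φ ^ 2) ≤
            (Real.cos φ)⁻¹ * (Real.pi / (4 * Real.cos φ) * Q) := by
          have : (Real.cos φ)⁻¹ * (Real.pi / (4 * Real.cos φ) * Q) =
              Real.pi * (Q / (4 * Real.cos φ ^ 2)) := by
            field_simp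
          rw [this]
          have h11 : 0 ≤ Q / (4 * Real.cos φ ^ 2) := by positivity
          nlinarith [Real.pi_gt_three]
        linarith
      have h12 : |(4 * Real.pi * Real.cos φ)⁻¹ - Q / (4 * Real.cos φ ^ 2)| ≤
          (4 * Real.pi * Real.cos φ)⁻¹ + Q / (4 * Real.cos φ ^ 2) := by
        have h13 : 0 ≤ (4 * Real.pi * Real.cos φ)⁻¹ := by positivity
        have h14 : 0 ≤ Q / (4 * Real.cos φ ^ 2) := by positivity
        rw [abs_le]
        constructor <;> linarith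
      exact (h12.trans h8).trans (mul_le_mul_of_nonneg_left h7 (inv_nonneg.2 hc.le))
    calc |(4 * Real.pi * Real.cos φ)⁻¹ - Q / (4 * Real.cos φ ^ 2)| *
          ((2 * Real.cos φ) ^ (-(1 / 2 : ℝ)) * Real.exp (-(Real.pi / (2 * Real.cos φ)) * Q))
        ≤ ((Real.cos φ)⁻¹ * Real.exp (Real.pi / (4 * Real.cos φ) * Q)) *
          ((2 * Real.cos φ) ^ (-(1 / 2 : ℝ)) *
            Real.exp (-(Real.pi / (2 * Real.cos φ)) * Q)) :=
          mul_le_mul_of_nonneg_right hX (by positivity)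
      _ = (2 * Real.cos φ) ^ (-(1 / 2 : ℝ)) * (Real.cos φ)⁻¹ *
          (Real.exp (Real.pi / (4 * Real.cos φ) * Q) *
            Real.exp (-(Real.pi / (2 * Real.cos φ)) * Q)) := by ring
      _ = _ := by
          rw [← Real.exp_add]
          congr 2
          field_simp
          ring
  · simp only [hp, if_false, one_mul]
    refine ⟨E_int hb β d, ?_⟩
    rw [hval]
    have h1 : Real.exp (-(Real.pi / (2 * Real.cos φ)) * Q) ≤
        Real.exp (-(Real.pi / (4 * Real.cos φ)) * Q) := by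
      refine Real.exp_le_exp.2 ?_
      have h2 : Real.pi / (2 * Real.cos φ) = 2 * (Real.pi / (4 * Real.cos φ)) := by
        field_simp
        norm_num
      have h3 : 0 ≤ Real.pi / (4 * Real.cos φ) * Q := by positivity
      rw [h2]
      linarith
    calc (2 * Real.cos φ) ^ (-(1 / 2 : ℝ)) * Real.exp (-(Real.pi / (2 * Real.cos φ)) * Q)
        ≤ (2 * Real.cos φ) ^ (-(1 / 2 : ℝ)) * Real.exp (-(Real.pi / (4 * Real.cos φ)) * Q) :=
          mul_le_mul_of_nonneg_left h1 hpos.le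
      _ ≤ (2 * Real.cos φ) ^ (-(1 / 2 : ℝ)) * (Real.cos φ)⁻¹ *
          Real.exp (-(Real.pi / (4 * Real.cos φ)) * Q) := by
          have : (2 * Real.cos φ) ^ (-(1 / 2 : ℝ)) ≤
              (2 * Real.cos φ) ^ (-(1 / 2 : ℝ)) * (Real.cos φ)⁻¹ := le_mul_of_one_le_right hpos.le hcinv
          exact mul_le_mul_of_nonneg_right this (Real.exp_pos _).le

end Pool.Agent.H29.THC
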