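import Pool.Agent.H29.THC.F1
import Pool.Agent.H12.RC.GS
import Pool.Agent.H68.RC.PO
import Pool.Agent.H3.HK.GA
import Pool.Agent.H16.HK.PS
import Pool.Agent.H42.RC.GA
import Pool.Agent.H33.RC.F1

/-!
# Poisson summation for the product of two rotated Gaussians
-/

set_option autoImplicit false

open MeasureTheory Set Filter Complex

namespace Pool.Agent.H29.THC

open Pool.Agent.H28.RC Pool.Agent.H25.HK Pool.Agent.H25

section

variable {ι : Type} [Fintype ι]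

/-- the rotated Gaussian -/
noncomputable def gz (J : Finset ι) (φ : ℝ) (u : ι → ℝ) : ℂ :=
  (∏ j ∈ J, (u j : ℂ)) * cexp (-Real.pi * (cexp (φ * I) * ((∑ i, u i ^ 2 : ℝ) : ℂ)))

theorem gz_eq [DecidableEq ι] (J : Finset ι) (φ : ℝ) (u : ι → ℝ) :
    gz J φ u = ∏ i, fz (i ∈ J) φ (u i) := by
  unfold gz fz
  rw [Finset.prod_mul_distrib, ← Complex.exp_sum, Finset.prod_ite_mem, Finset.univ_inter]
  congr 2
  push_cast
  rw [Finset.mul_sum, Finset.mul_sum]

open scoped Classical in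
theorem gz_eq' (J : Finset ι) (φ : ℝ) (u : ι → ℝ) :
    gz J φ u = ∏ i, @fz (i ∈ J) (Classical.propDecidable _) φ (u i) := by
  rw [gz_eq]
  refine Finset.prod_congr rfl fun i _ => ?_
  unfold fz
  by_cases h : i ∈ J <;> simp [h]

theorem gz_cont (J : Finset ι) (φ : ℝ) : Continuous (gz J φ : (ι → ℝ) → ℂ) := by
  unfold gz
  fun_prop

theorem fz_norm (p : Prop) [Decidable p] (φ v : ℝ) :
    ‖fz p φ v‖ = (if p then |v| else 1) * Real.exp (-Real.pi * Real.cos φ * v ^ 2) := by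
  unfold fz
  rw [norm_mul, Complex.norm_exp]
  congr 1
  · split_ifs <;> simp
  · congr 1
    have h1 : (-(Real.pi : ℂ) * (cexp (φ * I) * ((v ^ 2 : ℝ) : ℂ))) =
        ((-Real.pi * v ^ 2 : ℝ) : ℂ) * cexp (φ * I) := by
      push_cast
      ring
    rw [h1, Complex.re_ofReal_mul, Complex.exp_ofReal_mul_I_re]
    ring

theorem fz_le (p : Prop) [Decidable p] (φ v : ℝ) (hc : 0 < Real.cos φ) :
    ‖fz p φ v‖ ≤ (Real.sqrt (Real.cos φ))⁻¹ * Real.exp (-(Real.pi / 2) * Real.cos φ * v ^ 2) := by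
  have hc1 : Real.cos φ ≤ 1 := Real.cos_le_one φ
  have hs : 0 < Real.sqrt (Real.cos φ) := Real.sqrt_pos.2 hc
  have hs1 : Real.sqrt (Real.cos φ) ≤ 1 := Real.sqrt_le_one.2 hc1
  rw [fz_norm]
  have h1 : (if p then |v| else 1) ≤ (Real.sqrt (Real.cos φ))⁻¹ *
      Real.exp (Real.pi / 2 * (Real.cos φ * v ^ 2)) := by
    have h2 := Pool.Agent.H12.RC.abs_le_exp (Real.sqrt (Real.cos φ) * v)
    rw [mul_pow, Real.sq_sqrt hc.le, abs_mul, abs_of_pos hs] at h2
    split_ifs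
    · rw [inv_mul_eq_div, le_div_iff₀ hs, mul_comm]
      exact h2
    · have h3 : 1 ≤ (Real.sqrt (Real.cos φ))⁻¹ := (one_le_inv₀ hs).2 hs1
      have h4 : 1 ≤ Real.exp (Real.pi / 2 * (Real.cos φ * v ^ 2)) := by
        refine Real.one_le_exp ?_
        have := Real.pi_pos
        positivity
      nlinarith
  calc (if p then |v| else 1) * Real.exp (-Real.pi * Real.cos φ * v ^ 2)
      ≤ ((Real.sqrt (Real.cos φ))⁻¹ * Real.exp (Real.pi / 2 * (Real.cos φ * v ^ 2))) *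
        Real.exp (-Real.pi * Real.cos φ * v ^ 2) :=
        mul_le_mul_of_nonneg_right h1 (Real.exp_pos _).le
    _ = _ := by
        rw [mul_assoc, ← Real.exp_add]
        congr 2
        ring

theorem gz_le (J : Finset ι) (φ : ℝ) (u : ι → ℝ) (hc : 0 < Real.cos φ) :
    ‖gz J φ u‖ ≤ (Real.sqrt (Real.cos φ))⁻¹ ^ Fintype.card ι *
      Real.exp (-(Real.pi / 2) * Real.cos φ * ∑ i, u i ^ 2) := by
  classical
  rw [gz_eq, norm_prod]
  calc ∏ i, ‖fz (i ∈ J) φ (u i)‖ ≤ ∏ i, ((Real.sqrt (Real.cos φ))⁻¹ *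
        Real.exp (-(Real.pi / 2) * Real.cos φ * u i ^ 2)) :=
        Finset.prod_le_prod (fun i _ => norm_nonneg _) fun i _ => fz_le _ _ _ hc
    _ = _ := by
        rw [Finset.prod_mul_distrib, Finset.prod_const, Finset.card_univ, ← Real.exp_sum,
          Finset.mul_sum]

/-- the product of two rotated Gaussians -/
noncomputable def pz (J : Finset ι) (φ : ℝ) (a u : ι → ℝ) : ℂ :=
  gz J φ (u + a) * (starRingEnd ℂ) (gz J φ u)

theorem pz_cont (J : Finset ι) (φ : ℝ) (a : ι → ℝ) : Continuous (pz J φ a) := by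
  unfold pz
  have h := gz_cont J φ
  exact (h.comp (continuous_id.add continuous_const)).mul (Complex.continuous_conj.comp h)

theorem pz_le (J : Finset ι) (φ : ℝ) (a u : ι → ℝ) (hc : 0 < Real.cos φ) :
    ‖pz J φ a u‖ ≤ ((Real.sqrt (Real.cos φ))⁻¹ ^ Fintype.card ι) ^ 2 *
      Real.exp (-(Real.pi / 2) * Real.cos φ * ∑ i, u i ^ 2) := by
  unfold pz
  rw [norm_mul, RCLike.norm_conj, sq, mul_assoc]
  refine mul_le_mul ?_ (gz_le J φ u hc) (norm_nonneg _) (by positivity)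
  refine (gz_le J φ (u + a) hc).trans ?_
  refine mul_le_of_le_one_right (by positivity) ?_
  rw [Real.exp_le_one_iff]
  have h1 : 0 ≤ Real.pi / 2 * Real.cos φ * ∑ i, (u + a) i ^ 2 := by
    have := Real.pi_pos
    have h2 : 0 ≤ ∑ i, (u + a) i ^ 2 := Finset.sum_nonneg fun i _ => sq_nonneg _
    positivity
  linarith

/-- the Fourier transform -/
noncomputable def Fq (J : Finset ι) (φ : ℝ) (a w : ι → ℝ) : ℂ :=
  ∏ i, ∫ v : ℝ, cexp (-(2 * Real.pi * (w i * v) : ℝ) * I) *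
    (@fz (i ∈ J) (Classical.propDecidable _) φ (v + a i) *
      (starRingEnd ℂ) (@fz (i ∈ J) (Classical.propDecidable _) φ v))

theorem Fq_le (J : Finset ι) (φ : ℝ) (a w : ι → ℝ) (hc : 0 < Real.cos φ) :
    ‖Fq J φ a w‖ ≤ ((2 * Real.cos φ) ^ (-(1 / 2 : ℝ)) * (Real.cos φ)⁻¹) ^ Fintype.card ι *
      (Real.exp (-(Real.pi * Real.cos φ / 4) * ∑ i, a i ^ 2) *
        Real.exp (-(Real.pi / (4 * Real.cos φ)) * ∑ i, (w i + Real.sin φ * a i) ^ 2)) := by
  classical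
  unfold Fq
  rw [norm_prod]
  calc ∏ i, ‖∫ v : ℝ, cexp (-(2 * Real.pi * (w i * v) : ℝ) * I) *
        (@fz (i ∈ J) (Classical.propDecidable _) φ (v + a i) *
          (starRingEnd ℂ) (@fz (i ∈ J) (Classical.propDecidable _) φ v))‖
      ≤ ∏ i, ((2 * Real.cos φ) ^ (-(1 / 2 : ℝ)) * (Real.cos φ)⁻¹ *
        Real.exp (-(Real.pi / (4 * Real.cos φ)) *
          ((w i + Real.sin φ * a i) ^ 2 + Real.cos φ ^ 2 * a i ^ 2))) :=
        Finset.prod_le_prod (fun i _ => norm_nonneg _) fun i _ =>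
          (@F1 (i ∈ J) (Classical.propDecidable _) φ (a i) (w i) hc).2
    _ = _ := by
        rw [Finset.prod_mul_distrib, Finset.prod_const, Finset.card_univ, ← Real.exp_sum,
          ← Real.exp_add]
        congr 2
        rw [← Finset.mul_sum, Finset.sum_add_distrib, ← Finset.mul_sum]
        field_simp
        ring

theorem FTn [DecidableEq ι] (A : Matrix ι ι ℝ) (J : Finset ι) (φ : ℝ) (a : ι → ℝ)
    (hA : A.det ≠ 0) (hc : 0 < Real.cos φ) (k : ι → ℝ) :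
    Integrable (fun x : ι → ℝ => pz J φ a (A.mulVec x)) ∧
    ∫ x : ι → ℝ, cexp (-(2 * Real.pi * (∑ i, k i * x i) : ℝ) * I) * pz J φ a (A.mulVec x) =
      ((|A.det|⁻¹ : ℝ) : ℂ) * Fq J φ a ((A⁻¹).transpose.mulVec k) := by
  classical
  have hAu : IsUnit A.det := hA.isUnit
  set w : ι → ℝ := (A⁻¹).transpose.mulVec k with hw
  have hkx : ∀ x, ∑ i, k i * x i = ∑ i, w i * (A.mulVec x) i := by
    intro x
    change k ⬝ᵥ x = w ⬝ᵥ A.mulVec x
    rw [hw, Matrix.mulVec_transpose, ← Matrix.dotProduct_mulVec, Matrix.mulVec_mulVec,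
      Matrix.nonsing_inv_mul _ hAu, Matrix.one_mulVec]
  set F : ι → ℝ → ℂ := fun i v => cexp (-(2 * Real.pi * (w i * v) : ℝ) * I) *
    (@fz (i ∈ J) (Classical.propDecidable _) φ (v + a i) *
      (starRingEnd ℂ) (@fz (i ∈ J) (Classical.propDecidable _) φ v)) with hF
  have hint : Integrable (fun v : ι → ℝ => ∏ i, F i (v i)) :=
    Integrable.fintype_prod fun i => (@F1 (i ∈ J) (Classical.propDecidable _) φ (a i) (w i) hc).1
  have hval : ∫ v : ι → ℝ, ∏ i, F i (v i) = ∏ i, ∫ x, F i x :=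
    integral_fintype_prod_volume_eq_prod F
  have hfx : ∀ x, cexp (-(2 * Real.pi * (∑ i, k i * x i) : ℝ) * I) *
      pz J φ a (A.mulVec x) = (fun v : ι → ℝ => ∏ i, F i (v i)) (A.mulVec x) := by
    intro x
    rw [hkx]
    unfold pz
    rw [gz_eq', gz_eq', map_prod]
    simp only [hF]
    rw [Finset.prod_mul_distrib, ← Complex.exp_sum, Finset.prod_mul_distrib]
    congr 1
    congr 1
    push_cast
    rw [Finset.mul_sum, ← Finset.sum_neg_distrib, Finset.sum_mul]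
  obtain ⟨h3, h4⟩ := Pool.Agent.H3.HK.subst A hA _ hint
  refine ⟨?_, ?_⟩
  · have h5 := h3.norm
    have h6 : Integrable (fun x => ‖pz J φ a (A.mulVec x)‖) := by
      refine h5.congr (Filter.Eventually.of_forall fun x => ?_)
      change ‖(fun v : ι → ℝ => ∏ i, F i (v i)) (A.mulVec x)‖ = _
      rw [← hfx, norm_mul, ← Complex.ofReal_neg, Complex.norm_exp_ofReal_mul_I, one_mul]
    refine (integrable_norm_iff ?_).1 h6
    have hcm : Continuous fun x : ι → ℝ => A.mulVec x := by fun_prop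
    exact ((pz_cont J φ a).comp hcm).aestronglyMeasurable
  · rw [integral_congr_ae (Filter.Eventually.of_forall hfx), h4, hval]
    unfold Fq
    rfl

theorem sum_sq_smul [DecidableEq ι] (A : Matrix ι ι ℝ) (r : ℝ) (x : ι → ℝ) :
    ∑ i, ((r • A).mulVec x i) ^ 2 = r ^ 2 * ∑ i, (A.mulVec x i) ^ 2 := by
  rw [Matrix.smul_mulVec, Finset.mul_sum]
  refine Finset.sum_congr rfl fun i _ => ?_
  rw [Pi.smul_apply, smul_eq_mul]
  ring

theorem gj_empty (u : ι → ℝ) : gj (∅ : Finset ι) u = Real.exp (-Real.pi * ∑ i, u i ^ 2) := by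
  unfold gj
  rw [Finset.prod_empty, one_mul]

/-- the bound for the shifted sum over the dual lattice -/
theorem dual_sum [DecidableEq ι] (A : Matrix ι ι ℝ) (J : Finset ι) (φ : ℝ) (a : ι → ℝ)
    (hA : A.det ≠ 0) (hc : 0 < Real.cos φ) :
    Summable (fun k : ι → ℤ => ‖Fq J φ a ((A⁻¹).transpose.mulVec (fun i => (k i : ℝ)))‖) ∧
    |A.det|⁻¹ * ∑' k : ι → ℤ, ‖Fq J φ a ((A⁻¹).transpose.mulVec (fun i => (k i : ℝ)))‖ ≤
      (2 ^ ((Fintype.card ι : ℝ) / 2) * Real.cos φ ^ (-(Fintype.card ι : ℝ))) *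
        Real.exp (-(Real.pi * Real.cos φ / 4) * ∑ i, a i ^ 2) *
        ∑' m : ι → ℤ, Real.exp (-Real.pi * (4 * Real.cos φ * ∑ i,
          (A.mulVec (fun i => (m i : ℝ)) i) ^ 2)) ∧
    Summable (fun m : ι → ℤ => Real.exp (-Real.pi * (4 * Real.cos φ * ∑ i,
          (A.mulVec (fun i => (m i : ℝ)) i) ^ 2))) := by
  have hpo : T_POc := Pool.Agent.H68.RC.pf_PO Pool.Agent.H16.HK.ps
    (Pool.Agent.H42.RC.pf_GA Pool.Agent.H33.RC.pf_F1) Pool.Agent.H12.RC.pf_GS
  have hAu : IsUnit A.det := hA.isUnit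
  set n := Fintype.card ι with hn
  set c := Real.cos φ with hcd
  set s := Real.sqrt c with hs
  have hs0 : 0 < s := Real.sqrt_pos.2 hc
  have hss : s ^ 2 = c := Real.sq_sqrt hc.le
  set r : ℝ := (2 * s)⁻¹ with hr
  have hr0 : 0 < r := by positivity
  have hr2 : r ^ 2 = (4 * c)⁻¹ := by
    rw [hr, inv_pow, mul_pow, hss]
    norm_num
  set A' : Matrix ι ι ℝ := r • (A⁻¹).transpose with hA'
  have hdet : A'.det = r ^ n * A.det⁻¹ := by
    rw [hA', Matrix.det_smul, Matrix.det_transpose, Matrix.det_nonsing_inv, Ring.inverse_eq_inv']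
  have hA'0 : A'.det ≠ 0 := by
    rw [hdet]
    exact mul_ne_zero (pow_ne_zero _ hr0.ne') (inv_ne_zero hA)
  set x₀ : ι → ℝ := A.transpose.mulVec (fun i => Real.sin φ * a i) with hx₀
  have hinv : (A'⁻¹).transpose = r⁻¹ • A := by
    have h1 : A' * (r⁻¹ • A.transpose) = 1 := by
      rw [hA', Matrix.smul_mul, Matrix.mul_smul, smul_smul, mul_inv_cancel₀ hr0.ne', one_smul,
        ← Matrix.transpose_mul, Matrix.mul_nonsing_inv _ hAu, Matrix.transpose_one]
    rw [Matrix.inv_eq_right_inv h1, Matrix.transpose_smul, Matrix.transpose_transpose]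
  obtain ⟨p1, p2, p3⟩ := hpo ι A' ∅ hA'0 x₀
  have e1 : ∀ k : ι → ℤ, gj (∅ : Finset ι) (A'.mulVec (fun i => (k i : ℝ) + x₀ i)) =
      Real.exp (-(Real.pi / (4 * c)) * ∑ i, ((A⁻¹).transpose.mulVec (fun i => (k i : ℝ)) i +
        Real.sin φ * a i) ^ 2) := by
    intro k
    rw [gj_empty, hA', sum_sq_smul, hr2]
    have h1 : (A⁻¹).transpose.mulVec (fun i => (k i : ℝ) + x₀ i) =
        (A⁻¹).transpose.mulVec (fun i => (k i : ℝ)) + fun i => Real.sin φ * a i := by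
      have h2 : (fun i => (k i : ℝ) + x₀ i) = (fun i => (k i : ℝ)) + x₀ := rfl
      rw [h2, Matrix.mulVec_add, hx₀, Matrix.mulVec_mulVec, ← Matrix.transpose_mul,
        Matrix.mul_nonsing_inv _ hAu, Matrix.transpose_one, Matrix.one_mulVec]
    rw [h1]
    congr 1
    simp only [Pi.add_apply]
    field_simp
  have e2 : ∀ m : ι → ℤ, gj (∅ : Finset ι) ((A'⁻¹).transpose.mulVec (fun i => (m i : ℝ))) =
      Real.exp (-Real.pi * (4 * c * ∑ i, (A.mulVec (fun i => (m i : ℝ)) i) ^ 2)) := by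
    intro m
    rw [gj_empty, hinv, sum_sq_smul, inv_pow, hr2, inv_inv]
  have s2 : Summable (fun m : ι → ℤ => Real.exp (-Real.pi * (4 * c * ∑ i,
      (A.mulVec (fun i => (m i : ℝ)) i) ^ 2))) := by
    refine p2.congr fun m => ?_
    rw [e2, Real.norm_of_nonneg (Real.exp_pos _).le]
  have s1 : Summable (fun k : ι → ℤ => Real.exp (-(Real.pi / (4 * c)) * ∑ i,
      ((A⁻¹).transpose.mulVec (fun i => (k i : ℝ)) i + Real.sin φ * a i) ^ 2)) := by
    refine p1.congr fun k => ?_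
    rw [e1, Real.norm_of_nonneg (Real.exp_pos _).le]
  -- the shifted sum is bounded by the unshifted sum
  have t1 : ∑' k : ι → ℤ, Real.exp (-(Real.pi / (4 * c)) * ∑ i,
      ((A⁻¹).transpose.mulVec (fun i => (k i : ℝ)) i + Real.sin φ * a i) ^ 2) ≤
      |A'.det|⁻¹ * ∑' m : ι → ℤ, Real.exp (-Real.pi * (4 * c * ∑ i,
        (A.mulVec (fun i => (m i : ℝ)) i) ^ 2)) := by
    have h1 : ‖∑' m : ι → ℤ,
        ((gj (∅ : Finset ι) (A'.mulVec (fun i => (m i : ℝ) + x₀ i)) : ℝ) : ℂ)‖ =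
        ∑' k : ι → ℤ, Real.exp (-(Real.pi / (4 * c)) * ∑ i,
          ((A⁻¹).transpose.mulVec (fun i => (k i : ℝ)) i + Real.sin φ * a i) ^ 2) := by
      rw [← Complex.ofReal_tsum, Complex.norm_real, Real.norm_of_nonneg]
      · exact tsum_congr e1
      · refine tsum_nonneg fun k => ?_
        rw [e1]
        exact (Real.exp_pos _).le
    rw [← h1, p3, Finset.card_empty, pow_zero, mul_one, norm_mul, Complex.norm_real,
      Real.norm_of_nonneg (by positivity)]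
    refine mul_le_mul_of_nonneg_left ?_ (by positivity)
    refine tsum_of_norm_bounded s2.hasSum fun m => ?_
    rw [norm_mul, Complex.norm_exp_ofReal_mul_I, one_mul, Complex.norm_real, e2,
      Real.norm_of_nonneg (Real.exp_pos _).le]
  set D : ℝ := ((2 * c) ^ (-(1 / 2 : ℝ)) * c⁻¹) ^ n *
    Real.exp (-(Real.pi * c / 4) * ∑ i, a i ^ 2) with hD
  have hD0 : 0 ≤ D := by positivity
  have b1 : ∀ k : ι → ℤ, ‖Fq J φ a ((A⁻¹).transpose.mulVec (fun i => (k i : ℝ)))‖ ≤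
      D * Real.exp (-(Real.pi / (4 * c)) * ∑ i,
        ((A⁻¹).transpose.mulVec (fun i => (k i : ℝ)) i + Real.sin φ * a i) ^ 2) := by
    intro k
    have := Fq_le J φ a ((A⁻¹).transpose.mulVec (fun i => (k i : ℝ))) hc
    rw [← mul_assoc] at this
    exact this
  have s3 : Summable (fun k : ι → ℤ =>
      ‖Fq J φ a ((A⁻¹).transpose.mulVec (fun i => (k i : ℝ)))‖) :=
    Summable.of_nonneg_of_le (fun _ => norm_nonneg _) b1 (s1.mul_left D)
  refine ⟨s3, ?_, s2⟩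
  have t2 : ∑' k : ι → ℤ, ‖Fq J φ a ((A⁻¹).transpose.mulVec (fun i => (k i : ℝ)))‖ ≤
      D * (|A'.det|⁻¹ * ∑' m : ι → ℤ, Real.exp (-Real.pi * (4 * c * ∑ i,
        (A.mulVec (fun i => (m i : ℝ)) i) ^ 2))) := by
    refine (s3.tsum_le_tsum b1 (s1.mul_left D)).trans ?_
    rw [tsum_mul_left]
    exact mul_le_mul_of_nonneg_left t1 hD0
  have hdA : 0 < |A.det| := abs_pos.2 hA
  have hkey : |A.det|⁻¹ * (D * |A'.det|⁻¹) =
      (2 ^ ((n : ℝ) / 2) * c ^ (-(n : ℝ))) *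
        Real.exp (-(Real.pi * c / 4) * ∑ i, a i ^ 2) := by
    have h1 : |A'.det|⁻¹ = (2 * s) ^ n * |A.det| := by
      rw [hdet, abs_mul, abs_inv, abs_of_pos (pow_pos hr0 n), mul_inv, inv_inv, ← inv_pow, hr,
        inv_inv]
    have h2 : (2 * c) ^ (-(1 / 2 : ℝ)) * (2 * s) = 2 ^ (1 / 2 : ℝ) := by
      have h3 : 2 * s = 2 ^ (1 / 2 : ℝ) * (2 * c) ^ (1 / 2 : ℝ) := by
        rw [Real.mul_rpow (by norm_num) hc.le, ← mul_assoc, ← Real.rpow_add (by norm_num), hs,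
          Real.sqrt_eq_rpow]
        norm_num
      rw [h3, mul_left_comm, ← Real.rpow_add (by positivity)]
      norm_num
    have h4 : ((2 * c) ^ (-(1 / 2 : ℝ)) * c⁻¹) ^ n * (2 * s) ^ n =
        2 ^ ((n : ℝ) / 2) * c ^ (-(n : ℝ)) := by
      rw [← mul_pow]
      have h5 : (2 * c) ^ (-(1 / 2 : ℝ)) * c⁻¹ * (2 * s) = 2 ^ (1 / 2 : ℝ) * c⁻¹ := by
        rw [← h2]
        ring
      rw [h5, mul_pow, inv_pow, Real.rpow_neg hc.le, Real.rpow_natCast, ← Real.rpow_natCast,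
        ← Real.rpow_mul (by norm_num)]
      congr 2
      ring
    rw [hD, h1]
    calc |A.det|⁻¹ * (((2 * c) ^ (-(1 / 2 : ℝ)) * c⁻¹) ^ n *
          Real.exp (-(Real.pi * c / 4) * ∑ i, a i ^ 2) * ((2 * s) ^ n * |A.det|))
        = (|A.det|⁻¹ * |A.det|) * (((2 * c) ^ (-(1 / 2 : ℝ)) * c⁻¹) ^ n * (2 * s) ^ n) *
          Real.exp (-(Real.pi * c / 4) * ∑ i, a i ^ 2) := by ring
      _ = _ := by rw [inv_mul_cancel₀ hdA.ne', one_mul, h4]
  calc |A.det|⁻¹ * ∑' k : ι → ℤ, ‖Fq J φ a ((A⁻¹).transpose.mulVec (fun i => (k i : ℝ)))‖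
      ≤ |A.det|⁻¹ * (D * (|A'.det|⁻¹ * ∑' m : ι → ℤ, Real.exp (-Real.pi * (4 * c * ∑ i,
        (A.mulVec (fun i => (m i : ℝ)) i) ^ 2)))) :=
        mul_le_mul_of_nonneg_left t2 (by positivity)
    _ = (|A.det|⁻¹ * (D * |A'.det|⁻¹)) * ∑' m : ι → ℤ, Real.exp (-Real.pi * (4 * c * ∑ i,
        (A.mulVec (fun i => (m i : ℝ)) i) ^ 2)) := by ring
    _ = _ := by rw [hkey]

/-- Poisson summation with a shift. -/
theorem poisson [DecidableEq ι] (A : Matrix ι ι ℝ) (J : Finset ι) (φ : ℝ) (a x₀ : ι → ℝ)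
    (hA : A.det ≠ 0) (hc : 0 < Real.cos φ) :
    Summable (fun m : ι → ℤ => ‖pz J φ a (A.mulVec (fun i => (m i : ℝ) + x₀ i))‖) ∧
    ∑' m : ι → ℤ, pz J φ a (A.mulVec (fun i => (m i : ℝ) + x₀ i)) =
      ((|A.det|⁻¹ : ℝ) : ℂ) * ∑' k : ι → ℤ,
        cexp ((2 * Real.pi * (∑ i, (k i : ℝ) * x₀ i) : ℝ) * I) *
          Fq J φ a ((A⁻¹).transpose.mulVec (fun i => (k i : ℝ))) := by
  have hps := Pool.Agent.H16.HK.ps
  set c := Real.cos φ with hcd
  set r : ℝ := Real.sqrt (c / 2) with hr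
  have hr0 : 0 < r := Real.sqrt_pos.2 (by positivity)
  have hr2 : r ^ 2 = c / 2 := Real.sq_sqrt (by positivity)
  have hrA : (r • A).det ≠ 0 := by
    rw [Matrix.det_smul]
    exact mul_ne_zero (pow_ne_zero _ hr0.ne') hA
  obtain ⟨B, hB, hB2⟩ := Pool.Agent.H12.RC.pf_GS ι (r • A) ∅ hrA x₀
  set C : ℝ := ((Real.sqrt c)⁻¹ ^ Fintype.card ι) ^ 2 with hC
  have hC0 : 0 ≤ C := by positivity
  have hdom : ∀ (m : ι → ℤ) (x : ι → ℝ), (∀ i, x i ∈ Icc (0 : ℝ) 1) →
      ‖pz J φ a (A.mulVec (fun i => x i + m i + x₀ i))‖ ≤ C * B m := by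
    intro m x hx
    refine (pz_le J φ a _ hc).trans (mul_le_mul_of_nonneg_left ?_ hC0)
    have h1 := hB2 m x hx
    rw [gj_empty, sum_sq_smul, hr2, Real.abs_exp] at h1
    refine le_trans (le_of_eq ?_) h1
    congr 1
    ring
  have hsum : Summable (fun m : ι → ℤ => ‖pz J φ a (A.mulVec (fun i => (m i : ℝ) + x₀ i))‖) := by
    refine Summable.of_nonneg_of_le (fun m => norm_nonneg _) (fun m => ?_) (hB.mul_left C)
    have := hdom m (fun _ => 0) (fun i => ⟨le_rfl, zero_le_one⟩)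
    simpa using this
  refine ⟨hsum, ?_⟩
  let f : (ι → ℝ) → ℂ := fun x => pz J φ a (A.mulVec (x + x₀))
  have hcm : Continuous fun x : ι → ℝ => A.mulVec x := by fun_prop
  have hint : Integrable (fun x : ι → ℝ => pz J φ a (A.mulVec x)) := (FTn A J φ a hA hc 0).1
  have hF : ∀ k : ι → ℤ,
      ∫ x : ι → ℝ, cexp (-(2 * Real.pi * (∑ i, (k i : ℝ) * x i) : ℝ) * I) * f x =
      ((|A.det|⁻¹ : ℝ) : ℂ) * (cexp ((2 * Real.pi * (∑ i, (k i : ℝ) * x₀ i) : ℝ) * I) *
          Fq J φ a ((A⁻¹).transpose.mulVec (fun i => (k i : ℝ)))) := by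
    intro k
    have e1 := integral_add_right_eq_self (μ := (volume : Measure (ι → ℝ)))
      (fun x : ι → ℝ => cexp (-(2 * Real.pi * (∑ i, (k i : ℝ) * (x i - x₀ i)) : ℝ) *
        I) * pz J φ a (A.mulVec x)) x₀
    have e2 : (fun x : ι → ℝ => cexp (-(2 * Real.pi * (∑ i, (k i : ℝ) * x i) : ℝ) *
        I) * f x) = fun x : ι → ℝ => (fun x : ι → ℝ =>
          cexp (-(2 * Real.pi * (∑ i, (k i : ℝ) * (x i - x₀ i)) : ℝ) *
        I) * pz J φ a (A.mulVec x)) (x + x₀) := by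
      funext x
      simp [f]
    rw [e2, e1]
    have e3 : (fun x : ι → ℝ => cexp (-(2 * Real.pi * (∑ i, (k i : ℝ) * (x i - x₀ i)) : ℝ) *
        I) * pz J φ a (A.mulVec x)) = fun x : ι → ℝ =>
        cexp ((2 * Real.pi * (∑ i, (k i : ℝ) * x₀ i) : ℝ) * I) *
        (cexp (-(2 * Real.pi * (∑ i, (k i : ℝ) * x i) : ℝ) * I) *
          pz J φ a (A.mulVec x)) := by
      funext x
      rw [← mul_assoc, ← Complex.exp_add]
      congr 2
      have : ∑ i, (k i : ℝ) * (x i - x₀ i) = ∑ i, (k i : ℝ) * x i - ∑ i, (k i : ℝ) * x₀ i := by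
        rw [← Finset.sum_sub_distrib]
        exact Finset.sum_congr rfl fun i _ => by ring
      rw [this]
      push_cast
      ring
    rw [e3, integral_const_mul, (FTn A J φ a hA hc (fun i => (k i : ℝ))).2]
    ring
  have h := hps ι f (fun m => C * B m) ((pz_cont J φ a).comp (hcm.comp
      (continuous_id.add continuous_const)))
    (hint.comp_add_right x₀)
    (fun m x hx => by
      change ‖pz J φ a (A.mulVec ((fun i => x i + (m i : ℝ)) + x₀))‖ ≤ C * B m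
      exact hdom m x hx) (hB.mul_left C)
    (by
      simp only [hF]
      refine Summable.mul_left _ (Summable.of_norm ?_)
      refine (dual_sum A J φ a hA hc).1.congr fun k => ?_
      rw [norm_mul, Complex.norm_exp_ofReal_mul_I, one_mul])
  simp only [hF] at h
  rw [← tsum_mul_left]
  exact h

end

end Pool.Agent.H29.THC
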