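import Pool.Agent.H29.TC.Defs

/-!
# Characters which are primitive at some prime are not trivial
-/

set_option autoImplicit false

open NumberField NumberField.InfinitePlace NumberField.Units
  NumberField.Units.dirichletUnitTheorem MeasureTheory Set Filter Complex
open scoped nonZeroDivisors ENNReal Topology

namespace Pool.Agent.H29.THC

open Pool.Agent.H25.HK Pool.Agent.H28.RC Pool.Agent.H23.LB Pool.Agent.H29.TC

variable {K : Type} [Field K] [NumberField K]

theorem ph_smul {ν : InfinitePlace K → ℝ} (hν : ∑ v, (v.mult : ℝ) * ν v = 0) (x : K)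
    (q : ℚ) (hq : q ≠ 0) (hx : x ≠ 0) : ph ν ((q : K) * x) = ph ν x := by
  unfold ph
  congr 2
  norm_cast
  have h1 : ∀ v : InfinitePlace K, Real.log (v ((q : K) * x)) = Real.log |(q : ℝ)| +
      Real.log (v x) := by
    intro v
    rw [map_mul, Real.log_mul]
    · congr 2
      rw [← InfinitePlace.norm_embedding_eq, map_ratCast, Complex.norm_ratCast]
    · exact (map_ne_zero v).2 (by exact_mod_cast hq)
    · exact (map_ne_zero v).2 hx
  simp only [h1, mul_add, Finset.sum_add_distrib]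
  rw [← Finset.sum_mul, hν, zero_mul, zero_add]

theorem tendsto_ph {ν : InfinitePlace K → ℝ} {x : K} (hx : x ≠ 0) {u : ℕ → K}
    (hu : ∀ v : InfinitePlace K, Tendsto (fun N => v (u N)) atTop (𝓝 0)) :
    Tendsto (fun N => ph ν (x + u N)) atTop (𝓝 (ph ν x)) := by
  unfold ph
  have h1 : ∀ v : InfinitePlace K, Tendsto (fun N => v (x + u N)) atTop (𝓝 (v x)) := by
    intro v
    rw [tendsto_iff_norm_sub_tendsto_zero]
    refine squeeze_zero (fun _ => norm_nonneg _) (fun N => ?_) (hu v)
    rw [Real.norm_eq_abs, ← InfinitePlace.norm_embedding_eq, ← InfinitePlace.norm_embedding_eq,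
      ← InfinitePlace.norm_embedding_eq]
    refine (abs_norm_sub_norm_le _ _).trans (le_of_eq ?_)
    rw [← map_sub, add_sub_cancel_left]
  have h2 : Tendsto (fun N => ∑ v, (v.mult : ℝ) * ν v * Real.log (v (x + u N))) atTop
      (𝓝 (∑ v, (v.mult : ℝ) * ν v * Real.log (v x))) := by
    refine tendsto_finsetSum _ fun v _ => ?_
    refine Tendsto.const_mul _ ?_
    exact (Real.continuousAt_log ((map_ne_zero v).2 hx)).tendsto.comp (h1 v)
  exact (Complex.continuous_exp.tendsto _).comp
    (((Complex.continuous_ofReal.tendsto _).comp h2).mul_const I)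

theorem sgph_one {f : Ideal (𝓞 K)} (hf : f ≠ ⊥) (S : Finset (RP K)) {ν : InfinitePlace K → ℝ}
    (hν : ∑ v, (v.mult : ℝ) * ν v = 0)
    (h : ∀ b : 𝓞 K, b ≠ 0 → b - 1 ∈ f → sg K S (b : K) * ph ν (b : K) = 1) (x : 𝓞 K)
    (hx : x ≠ 0) : sg K S (x : K) * ph ν (x : K) = 1 := by
  have hx' : (x : K) ≠ 0 := by exact_mod_cast hx
  -- a positive integer in `f`
  set n : ℕ := Ideal.absNorm f with hn
  have hnf : (n : 𝓞 K) ∈ f := Ideal.absNorm_mem f
  have hn0 : n ≠ 0 := fun h0 => hf (Ideal.absNorm_eq_zero_iff.1 h0)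
  have hnN : ∀ N : ℕ, 0 < N → ((n : K) * N) ≠ 0 := by
    intro N hN
    exact mul_ne_zero (by exact_mod_cast hn0) (by exact_mod_cast hN.ne')
  set u : ℕ → K := fun N => ((n : K) * N)⁻¹ with hu
  have hu0 : ∀ v : InfinitePlace K, Tendsto (fun N => v (u N)) atTop (𝓝 0) := by
    intro v
    have e1 : ∀ N : ℕ, v (u N) = ((n : ℝ) * N)⁻¹ := by
      intro N
      rw [hu]
      simp only
      rw [map_inv₀, map_mul, ← InfinitePlace.norm_embedding_eq, ← InfinitePlace.norm_embedding_eq,
        map_natCast, map_natCast, Complex.norm_natCast, Complex.norm_natCast]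
    simp only [e1]
    refine Tendsto.comp tendsto_inv_atTop_zero ?_
    exact Tendsto.const_mul_atTop (by positivity) tendsto_natCast_atTop_atTop
  have h1 := tendsto_ph (ν := ν) hx' hu0
  -- the element `1 + n N x`
  set b : ℕ → 𝓞 K := fun N => 1 + n * N * x with hb
  have hbK : ∀ N : ℕ, 0 < N → ((b N : 𝓞 K) : K) = ((n * N : ℕ) : ℚ) * ((x : K) + u N) := by
    intro N hN
    rw [hb, hu]
    simp only
    push_cast
    rw [mul_add, mul_inv_cancel₀ (hnN N hN)]
    ring
  -- `x + u N` is eventually nonzero and has the signs of `x`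
  have hre : ∀ w : RP K, ∀ᶠ N in atTop, (0 < re w ((x : K) + u N) ↔ 0 < re w (x : K)) := by
    intro w
    have e0 : re w (x : K) ≠ 0 := (map_ne_zero _).2 hx'
    have e1 : Tendsto (fun N => re w ((x : K) + u N)) atTop (𝓝 (re w (x : K))) := by
      rw [tendsto_iff_norm_sub_tendsto_zero]
      refine squeeze_zero (fun _ => norm_nonneg _) (fun N => ?_) (hu0 w.1)
      unfold Pool.Agent.H28.RC.re
      rw [← map_sub, add_sub_cancel_left]
      refine le_of_eq ?_
      rw [← InfinitePlace.norm_embedding_eq]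
      have e2 : ((embedding_of_isReal w.2 (u N) : ℝ) : ℂ) = w.1.embedding (u N) :=
        InfinitePlace.embedding_of_isReal_apply w.2 (u N)
      rw [← e2, Complex.norm_real]
    rcases lt_or_gt_of_ne e0 with h2 | h2
    · filter_upwards [e1.eventually (gt_mem_nhds h2)] with N hN
      exact ⟨fun h3 => absurd h3 (not_lt.2 hN.le), fun h3 => absurd h3 (not_lt.2 h2.le)⟩
    · filter_upwards [e1.eventually (lt_mem_nhds h2)] with N hN
      exact ⟨fun _ => h2, fun _ => hN⟩
  have hne : ∀ᶠ N in atTop, (x : K) + u N ≠ 0 := by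
    obtain ⟨v⟩ : Nonempty (InfinitePlace K) := inferInstance
    have e0 : 0 < v (x : K) := InfinitePlace.pos_iff.2 hx'
    filter_upwards [(hu0 v).eventually (gt_mem_nhds e0)] with N hN h0
    have e3 : (x : K) = -u N := eq_neg_of_add_eq_zero_left h0
    have e4 : v (-u N) = v (u N) := by
      rw [← InfinitePlace.norm_embedding_eq, ← InfinitePlace.norm_embedding_eq, map_neg, norm_neg]
    rw [e3, e4] at hN
    exact lt_irrefl _ hN
  have hall : ∀ᶠ N in atTop, ∀ w : RP K, (0 < re w ((x : K) + u N) ↔ 0 < re w (x : K)) :=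
    eventually_all.2 hre
  have hfin : ∀ᶠ N in atTop, sg K S (x : K) * ph ν ((x : K) + u N) = 1 := by
    filter_upwards [hall, hne, eventually_gt_atTop 0] with N h2 h3 h4
    have h5 : ((n * N : ℕ) : ℚ) ≠ 0 := by
      have : n * N ≠ 0 := mul_ne_zero hn0 h4.ne'
      exact_mod_cast this
    have h6 : (b N : 𝓞 K) ≠ 0 := by
      intro h0
      have h7 := hbK N h4
      rw [h0] at h7
      have h8 : (((n * N : ℕ) : ℚ) : K) ≠ 0 := by exact_mod_cast h5
      have h9 : (((n * N : ℕ) : ℚ) : K) * ((x : K) + u N) = 0 := by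
        rw [← h7]
        simp
      exact (mul_ne_zero h8 h3) h9
    have h7 := h (b N) h6 (by
      rw [hb]
      simp only [add_sub_cancel_left]
      exact Ideal.mul_mem_right _ _ (Ideal.mul_mem_right _ _ hnf))
    rw [hbK N h4, ph_smul hν _ _ h5 h3] at h7
    have h8 : sg K S ((((n * N : ℕ) : ℚ) : K) * ((x : K) + u N)) = sg K S (x : K) := by
      unfold sg
      refine Finset.prod_congr rfl fun w _ => ?_
      have h9 : (0 < re w ((((n * N : ℕ) : ℚ) : K) * ((x : K) + u N))) ↔ 0 < re w (x : K) := by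
        rw [← h2 w]
        unfold Pool.Agent.H28.RC.re
        rw [map_mul, map_ratCast]
        have h10 : (0 : ℝ) < (((n * N : ℕ) : ℚ) : ℝ) := by
          have : 0 < n * N := Nat.mul_pos (Nat.pos_of_ne_zero hn0) h4
          exact_mod_cast this
        exact mul_pos_iff_of_pos_left h10
      simp only [h9]
    rw [h8] at h7
    exact h7
  have h2 : Tendsto (fun N => sg K S (x : K) * ph ν ((x : K) + u N)) atTop
      (𝓝 (sg K S (x : K) * ph ν (x : K))) := h1.const_mul _
  exact tendsto_nhds_unique h2 (tendsto_const_nhds.congr' (hfin.mono fun _ h => h.symm))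

/-- a character which is primitive at the primes of `k ≠ 1` takes values different from `0`, `1` -/
theorem nontriv {f k : Ideal (𝓞 K)} (hf : f ≠ ⊥) (hk : k ≠ ⊤) (χ : HC K f) (hP : Prk k χ) :
    ∃ I : Ideal (𝓞 K), χ.ψ I ≠ 0 ∧ χ.ψ I ≠ 1 := by
  by_contra hcon
  have hcon' : ∀ I : Ideal (𝓞 K), χ.ψ I ≠ 0 → χ.ψ I = 1 := fun I h0 => by
    by_contra h1
    exact hcon ⟨I, h0, h1⟩
  obtain ⟨P, hPm, hkP⟩ := Ideal.exists_le_maximal k hk
  obtain ⟨a, ha, hcop, -, hne⟩ := hP P hPm.isPrime hkP
  have hspan : ∀ b : 𝓞 K, b ≠ 0 → Ideal.span {b} ≠ ⊥ := fun b hb => by simpa using hb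
  have h1 : χ.ψ (Ideal.span {a}) = 1 := hcon' _ (by
    rw [← norm_ne_zero_iff, χ.norm_one _ (hspan a ha) hcop]
    exact one_ne_zero)
  apply hne
  rw [h1]
  symm
  refine sgph_one hf χ.S χ.norm_zero (fun b hb hbf => ?_) a ha
  rw [← χ.princ b hb hbf]
  apply hcon'
  have h3 : Ideal.span {b} ⊔ f = ⊤ := by
    rw [Ideal.eq_top_iff_one]
    have : (1 : 𝓞 K) = b - (b - 1) := by ring
    rw [this]
    exact sub_mem (Ideal.mem_sup_left (Ideal.mem_span_singleton_self b))
      (Ideal.mem_sup_right hbf)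
  rw [← norm_ne_zero_iff, χ.norm_one _ (hspan b hb) h3]
  exact one_ne_zero

end Pool.Agent.H29.THC
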